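import Mathlib
import Pool.Agent.Helper247.Queue
import Pool.Agent.Helper247.Univ

set_option autoImplicit false

/-!
# A fixed Post correspondence type problem which is undecidable
-/

namespace Pool.Agent.Q221.Conj

open Turing Relation Pool.Agent.Helper247 Pool.Agent.Helper247.Queue

/-- The list of images of `f`. -/
def Fm {S : Type} (P : S → S → List S) (s : List (S × S)) : List S := s.flatMap fun i => P i.1 i.2

/-- The list of pairs, flattened. -/
def Hm {S : Type} (s : List (S × S)) : List S := s.flatMap fun i => [i.1, i.2]

/-- The Post correspondence type problem. -/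
def Sol {S : Type} (P : S → S → List S) (K : S) (w : List S) : Prop :=
  ∃ s : List (S × S), w ++ Fm P s = Hm s ++ [K]

theorem reach_eq {S : Type} {P : S → S → List S} {w z : List S} (h : QReach P w z) :
    ∃ s : List (S × S), w ++ Fm P s = Hm s ++ z := by
  induction h using ReflTransGen.head_induction_on with
  | refl => exact ⟨[], by simp [Fm, Hm]⟩
  | @head a b hab _ ih =>
    obtain ⟨s, hs⟩ := ih
    cases hab with
    | mk x y t =>
      refine ⟨(x, y) :: s, ?_⟩
      simp only [Fm, Hm, List.flatMap_cons] at hs ⊢
      simp only [List.cons_append, List.nil_append, List.append_assoc] at hs ⊢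
      rw [hs]

theorem sol_reach {S : Type} {P : S → S → List S} {K : S}
    (hP : ∀ x y, 2 ≤ (P x y).length ∨ P x y = [K]) :
    ∀ (s : List (S × S)) (w : List S), (2 ≤ w.length ∨ w = [K]) → w ++ Fm P s = Hm s ++ [K] →
      QReach P w [K] := by
  intro s
  induction s with
  | nil =>
    intro w _ h
    simp only [Fm, Hm, List.flatMap_nil, List.append_nil, List.nil_append] at h
    subst h
    exact ReflTransGen.refl
  | cons i s ih =>
    intro w hw h
    rcases hw with hw | rfl
    · rcases w with _ | ⟨x, _ | ⟨y, t⟩⟩
      · simp at hw
      · simp at hw
      · simp only [Fm, Hm, List.flatMap_cons, List.cons_append, List.nil_append,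
          List.cons.injEq] at h
        obtain ⟨rfl, rfl, h⟩ := h
        refine ReflTransGen.head (QStep.mk _ _ t) (ih _ ?_ ?_)
        · rcases hP i.1 i.2 with h2 | h2
          · left
            simp only [List.length_append]
            omega
          · rw [h2]
            rcases t with _ | ⟨c, t⟩
            · right; rfl
            · left
              simp
        · simp only [Fm, Hm, List.append_assoc]
          exact h
    · exact ReflTransGen.refl

theorem sol_iff {S : Type} {P : S → S → List S} {K : S}
    (hP : ∀ x y, 2 ≤ (P x y).length ∨ P x y = [K]) {w : List S} (hw : 2 ≤ w.length) :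
    Sol P K w ↔ QReach P w [K] :=
  ⟨fun ⟨s, hs⟩ => sol_reach hP s w (Or.inl hw) hs, fun h => reach_eq h⟩

/-- A fixed finite alphabet and fixed productions with undecidable correspondence problem. -/
theorem base : ∃ (S : Type) (_ : Finite S) (P : S → S → List S) (K : S) (w : ℕ → List S),
    (∀ n, 2 ≤ (w n).length) ∧
    (∀ (A : Type) [Primcodable A] (κ : S → A), Computable fun n => (w n).map κ) ∧
    ¬ ComputablePred (fun n => Sol P K (w n)) := by
  classical
  obtain ⟨Λ, i1, i2, M, hM⟩ := Univ.exists_machine
  let S := Queue.Sym (TM2to1.Γ' PartrecToTM2.K' (fun _ => PartrecToTM2.Γ')) Λ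
  have fK : Finite PartrecToTM2.K' := by
    refine Finite.of_injective (fun k : PartrecToTM2.K' => match k with
      | .main => (0 : Fin 4)
      | .rev => 1
      | .aux => 2
      | .stack => 3) ?_
    intro a b h
    cases a <;> cases b <;> simp_all
  have fG : Finite (TM2to1.Γ' PartrecToTM2.K' (fun _ => PartrecToTM2.Γ')) :=
    inferInstanceAs (Finite (Bool × (PartrecToTM2.K' → Option PartrecToTM2.Γ')))
  have fS : Finite S := inferInstanceAs (Finite (Queue.Sym _ _))
  let P : S → S → List S := Queue.prod M
  have hP1 : ∀ x y, 2 ≤ (P x y).length ∨ P x y = [Queue.Sym.kill] := prod_length M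
  let tape : ℕ → List (TM2to1.Γ' PartrecToTM2.K' (fun _ => PartrecToTM2.Γ')) := fun n =>
    Univ.sym true .cons :: (PartrecToTM2.trNat n).reverse.map (Univ.sym false)
  let w0 : ℕ → List S := fun n => initWord (tape n)
  have hw0 : ∀ n, 2 ≤ (w0 n).length := fun n => initWord_length _
  refine ⟨S, fS, P, Queue.Sym.kill, w0, hw0, ?_, ?_⟩
  · intro A _ κ
    -- a finite coding of the digits
    let dec : ℕ → PartrecToTM2.Γ' := fun m => if m = 0 then .bit0 else if m = 1 then .bit1 else
      if m = 2 then .cons else .consₗ
    let enc : PartrecToTM2.Γ' → ℕ := fun a => match a with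
      | .bit0 => 0
      | .bit1 => 1
      | .cons => 2
      | .consₗ => 3
    have hde : ∀ a, dec (enc a) = a := by
      intro a; cases a <;> rfl
    let g : ℕ → A := fun m => κ (Queue.Sym.cell (Univ.sym false (dec m)))
    have hg : Computable g := by
      have : Primrec (fun m : ℕ => if m = 0 then κ (Queue.Sym.cell (Univ.sym false .bit0)) else
          if m = 1 then κ (Queue.Sym.cell (Univ.sym false .bit1)) else
          if m = 2 then κ (Queue.Sym.cell (Univ.sym false .cons)) else
            κ (Queue.Sym.cell (Univ.sym false .consₗ))) := by
        refine Primrec.ite (PrimrecRel.comp Primrec.eq Primrec.id (Primrec.const 0))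
          (Primrec.const _) ?_
        refine Primrec.ite (PrimrecRel.comp Primrec.eq Primrec.id (Primrec.const 1))
          (Primrec.const _) ?_
        exact Primrec.ite (PrimrecRel.comp Primrec.eq Primrec.id (Primrec.const 2))
          (Primrec.const _) (Primrec.const _)
      refine this.to_comp.of_eq ?_
      intro m
      simp only [g, dec]
      split_ifs <;> rfl
    have hd := Univ.digits_computable enc
    have hd2 : Computable (fun n => ((PartrecToTM2.trNat n).map enc).map g) := by
      have hm : Computable (fun l : List ℕ => l.map g) := by
        have hgp : Primrec g := by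
          have : Primrec (fun m : ℕ => if m = 0 then κ (Queue.Sym.cell (Univ.sym false .bit0)) else
              if m = 1 then κ (Queue.Sym.cell (Univ.sym false .bit1)) else
              if m = 2 then κ (Queue.Sym.cell (Univ.sym false .cons)) else
                κ (Queue.Sym.cell (Univ.sym false .consₗ))) := by
            refine Primrec.ite (PrimrecRel.comp Primrec.eq Primrec.id (Primrec.const 0))
              (Primrec.const _) ?_
            refine Primrec.ite (PrimrecRel.comp Primrec.eq Primrec.id (Primrec.const 1))
              (Primrec.const _) ?_
            exact Primrec.ite (PrimrecRel.comp Primrec.eq Primrec.id (Primrec.const 2))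
              (Primrec.const _) (Primrec.const _)
          refine this.of_eq ?_
          intro m
          simp only [g, dec]
          split_ifs <;> rfl
        exact (Primrec.list_map Primrec.id (hgp.comp Primrec.snd).to₂).to_comp
      exact hm.comp hd
    have : (fun n => (w0 n).map κ) = fun n =>
        (if (((PartrecToTM2.trNat n).map enc).length + 1) % 2 = 0 then
          [κ Queue.Sym.mark, κ (Queue.Sym.head default (Univ.sym true .cons))]
        else [κ Queue.Sym.mark, κ (Queue.Sym.cell default),
          κ (Queue.Sym.head default (Univ.sym true .cons))]) ++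
        (((PartrecToTM2.trNat n).map enc).map g).reverse := by
      funext n
      simp only [w0, tape, initWord, List.length_cons, List.length_map, List.length_reverse,
        List.map_map]
      have hh : g ∘ enc = fun a => κ (Queue.Sym.cell (Univ.sym false a)) := by
        funext a
        simp [g, hde]
      rw [hh]
      split_ifs <;> simp [Function.comp_def]
    rw [this]
    have hlen := Computable.list_length.comp hd
    have hmod : Computable (fun n : ℕ => ((((PartrecToTM2.trNat n).map enc).length + 1) % 2)) :=
      (Primrec.nat_mod.comp (Primrec.succ.comp Primrec.id) (Primrec.const 2)).to_comp.comp hlen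
    have hite : Computable (fun n : ℕ =>
        (if (((PartrecToTM2.trNat n).map enc).length + 1) % 2 = 0 then
          [κ Queue.Sym.mark, κ (Queue.Sym.head default (Univ.sym true .cons))]
        else [κ Queue.Sym.mark, κ (Queue.Sym.cell default),
          κ (Queue.Sym.head default (Univ.sym true .cons))])) := by
      have hp : Primrec (fun m : ℕ => if m = 0 then
          [κ Queue.Sym.mark, κ (Queue.Sym.head default (Univ.sym true .cons))]
        else [κ Queue.Sym.mark, κ (Queue.Sym.cell default),
          κ (Queue.Sym.head default (Univ.sym true .cons))]) :=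
        Primrec.ite (PrimrecRel.comp Primrec.eq Primrec.id (Primrec.const 0))
          (Primrec.const _) (Primrec.const _)
      exact hp.to_comp.comp hmod
    exact Computable.list_append.comp hite (Computable.list_reverse.comp hd2)
  · intro hc
    apply Univ.u_not_computable
    have : (fun n => (Univ.u n).Dom) = fun n => Sol P Queue.Sym.kill (w0 n) := by
      funext n
      apply propext
      rw [← hM n]
      have hrep : Rep (TM0.init (tape n) : TM0.Cfg _ Λ) (initWord (tape n)) :=
        rep_init (tape n) (by simp [tape])
      rw [← rep_halts M hrep, sol_iff hP1 (hw0 n)]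
    rw [this]
    exact hc

end Pool.Agent.Q221.Conj
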