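import Mathlib

set_option autoImplicit false

/-!
# String rewriting systems, the monoids they present, and conjugacy relations
-/

namespace Pool.Agent.Q221.Conj

section Rewriting

variable {A : Type}

/-- One rewriting step `x l y → x r y` with a rule `(l, r) ∈ R`. -/
def Step (R : Set (List A × List A)) (u v : List A) : Prop :=
  ∃ x y l r, (l, r) ∈ R ∧ u = x ++ l ++ y ∧ v = x ++ r ++ y

/-- The reflexive transitive closure of the rewriting relation. -/
abbrev Steps (R : Set (List A × List A)) : List A → List A → Prop :=
  Relation.ReflTransGen (Step R)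

/-- Confluence. -/
def Confluent (R : Set (List A × List A)) : Prop :=
  ∀ u v w, Steps R u v → Steps R u w → ∃ z, Steps R v z ∧ Steps R w z

/-- Length reducing systems. -/
def LengthReducing (R : Set (List A × List A)) : Prop :=
  ∀ l r, (l, r) ∈ R → r.length < l.length

/-- Monadic systems: the right hand sides are letters or empty, and the rules reduce the length. -/
def Monadic (R : Set (List A × List A)) : Prop :=
  ∀ l r, (l, r) ∈ R → r.length ≤ 1 ∧ r.length < l.length

/-- The smallest congruence of the free monoid that contains `R`. -/
def con (R : Set (List A × List A)) : Con (FreeMonoid A) :=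
  conGen fun u v => (FreeMonoid.toList u, FreeMonoid.toList v) ∈ R

/-- The monoid `M(A; R)`. -/
abbrev Mon (R : Set (List A × List A)) : Type := (con R).Quotient

/-- The element of `M(A; R)` represented by a word. -/
def cl (R : Set (List A × List A)) (u : List A) : Mon R := (FreeMonoid.ofList u : FreeMonoid A)

end Rewriting

section Conjugacy

variable {M : Type} [Monoid M]

/-- `p`-conjugacy: `a = u v` and `b = v u` for some `u, v`. -/
def PConj (a b : M) : Prop := ∃ u v : M, a = u * v ∧ b = v * u

/-- Zero elements. -/
def IsZeroElt (z : M) : Prop := ∀ m : M, z * m = z ∧ m * z = z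

/-- The set `P(a)`: if `M` has a zero `z` then `P(z) = {z}`, and for `a ≠ z` the set `P(a)` consists
of all `g` such that `m a g = z` implies `m a = z`; if `M` has no zero then `P(a) = M`. -/
def PSet (a : M) : Set M :=
  {g | ∀ z, IsZeroElt z → (a = z → g = z) ∧ (a ≠ z → ∀ m : M, m * a * g = z → m * a = z)}

/-- `c`-conjugacy. -/
def CConj (a b : M) : Prop := ∃ g ∈ PSet a, ∃ h ∈ PSet b, a * g = g * b ∧ b * h = h * a

end Conjugacy

end Pool.Agent.Q221.Conj
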