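import Mathlib
import Pool.Agent.Q221.Conj.Def

set_option autoImplicit false

/-!
# Basic facts on string rewriting systems
-/

namespace Pool.Agent.Q221.Conj

open Relation

section Newman

theorem newman {α : Type} {r : α → α → Prop} (wf : WellFounded fun a b => r b a)
    (lc : ∀ a b c, r a b → r a c → ∃ d, ReflTransGen r b d ∧ ReflTransGen r c d) :
    ∀ a b c, ReflTransGen r a b → ReflTransGen r a c →
      ∃ d, ReflTransGen r b d ∧ ReflTransGen r c d := by
  intro a
  induction a using wf.induction with
  | _ a ih =>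
    intro b c hb hc
    rcases ReflTransGen.cases_head hb with rfl | ⟨b1, hb1, hb2⟩
    · exact ⟨c, hc, ReflTransGen.refl⟩
    rcases ReflTransGen.cases_head hc with rfl | ⟨c1, hc1, hc2⟩
    · exact ⟨b, ReflTransGen.refl, hb⟩
    obtain ⟨d, hd1, hd2⟩ := lc a b1 c1 hb1 hc1
    obtain ⟨e, he1, he2⟩ := ih b1 hb1 b d hb2 hd1
    obtain ⟨f, hf1, hf2⟩ := ih c1 hc1 c d hc2 hd2
    obtain ⟨g, hg1, hg2⟩ := ih b1 hb1 e f (hb2.trans he1) (hd1.trans hf2)
    exact ⟨g, he1.trans hg1, hf1.trans hg2⟩

end Newman

variable {A : Type} {R : Set (List A × List A)}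

theorem Step.left {u v : List A} (h : Step R u v) (x : List A) : Step R (x ++ u) (x ++ v) := by
  obtain ⟨a, b, l, r, hr, rfl, rfl⟩ := h
  exact ⟨x ++ a, b, l, r, hr, by simp, by simp⟩

theorem Step.right {u v : List A} (h : Step R u v) (x : List A) : Step R (u ++ x) (v ++ x) := by
  obtain ⟨a, b, l, r, hr, rfl, rfl⟩ := h
  exact ⟨a, b ++ x, l, r, hr, by simp, by simp⟩

theorem Steps.left {u v : List A} (h : Steps R u v) (x : List A) : Steps R (x ++ u) (x ++ v) :=
  ReflTransGen.lift (p := Step R) (fun u => x ++ u) (fun _ _ h => Step.left h x) _ _ h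

theorem Steps.right {u v : List A} (h : Steps R u v) (x : List A) : Steps R (u ++ x) (v ++ x) :=
  ReflTransGen.lift (p := Step R) (fun u => u ++ x) (fun _ _ h => Step.right h x) _ _ h

theorem Steps.append {u v u' v' : List A} (h : Steps R u v) (h' : Steps R u' v') :
    Steps R (u ++ u') (v ++ v') := (h.right u').trans (h'.left v)

theorem EqvGen.left {u v : List A} (h : EqvGen (Step R) u v) (x : List A) :
    EqvGen (Step R) (x ++ u) (x ++ v) := by
  induction h with
  | rel _ _ h => exact .rel _ _ (h.left x)
  | refl _ => exact .refl _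
  | symm _ _ _ ih => exact .symm _ _ ih
  | trans _ _ _ _ _ ih1 ih2 => exact .trans _ _ _ ih1 ih2

theorem EqvGen.right {u v : List A} (h : EqvGen (Step R) u v) (x : List A) :
    EqvGen (Step R) (u ++ x) (v ++ x) := by
  induction h with
  | rel _ _ h => exact .rel _ _ (h.right x)
  | refl _ => exact .refl _
  | symm _ _ _ ih => exact .symm _ _ ih
  | trans _ _ _ _ _ ih1 ih2 => exact .trans _ _ _ ih1 ih2

theorem rel_iff {u v : FreeMonoid A} :
    con R u v ↔ EqvGen (Step R) (FreeMonoid.toList u) (FreeMonoid.toList v) := by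
  constructor
  · intro h
    have h' : ConGen.Rel (fun u v : FreeMonoid A =>
      (FreeMonoid.toList u, FreeMonoid.toList v) ∈ R) u v := h
    clear h
    induction h' with
    | of x y h =>
      exact .rel _ _ ⟨[], [], _, _, h, by simp, by simp⟩
    | refl x => exact .refl _
    | symm _ ih => exact .symm _ _ ih
    | trans _ _ ih1 ih2 => exact .trans _ _ _ ih1 ih2
    | mul _ _ ih1 ih2 =>
      exact .trans _ _ _ (EqvGen.right ih1 _) (EqvGen.left ih2 _)
  · intro h
    have key : ∀ u v : List A, EqvGen (Step R) u v →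
        con R (FreeMonoid.ofList u) (FreeMonoid.ofList v) := by
      intro u v h
      induction h with
      | rel u v h =>
        obtain ⟨a, b, l, r, hr, rfl, rfl⟩ := h
        have : con R (FreeMonoid.ofList l) (FreeMonoid.ofList r) :=
          ConGen.Rel.of _ _ hr
        have h2 := (con R).mul ((con R).mul ((con R).refl (FreeMonoid.ofList a)) this)
          ((con R).refl (FreeMonoid.ofList b))
        exact h2
      | refl _ => exact (con R).refl _
      | symm _ _ _ ih => exact (con R).symm ih
      | trans _ _ _ _ _ ih1 ih2 => exact (con R).trans ih1 ih2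
    exact key _ _ h

theorem cl_eq {u v : List A} : cl R u = cl R v ↔ EqvGen (Step R) u v := by
  unfold cl
  rw [Con.eq, rel_iff]
  rfl

theorem cl_append (u v : List A) : cl R (u ++ v) = cl R u * cl R v := rfl

theorem cl_surj (m : Mon R) : ∃ u, cl R u = m := by
  induction m using Con.induction_on with
  | _ x => exact ⟨FreeMonoid.toList x, rfl⟩

theorem cl_eq_of_steps {u v : List A} (h : Steps R u v) : cl R u = cl R v :=
  cl_eq.2 (by
    induction h with
    | refl => exact .refl _
    | tail _ h ih => exact .trans _ _ _ ih (.rel _ _ h))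

theorem join_of_eq (hc : Confluent R) {u v : List A} (h : cl R u = cl R v) :
    ∃ z, Steps R u z ∧ Steps R v z := by
  rw [cl_eq] at h
  induction h with
  | rel u v h => exact ⟨v, ReflTransGen.single h, ReflTransGen.refl⟩
  | refl u => exact ⟨u, ReflTransGen.refl, ReflTransGen.refl⟩
  | symm _ _ _ ih => obtain ⟨z, h1, h2⟩ := ih; exact ⟨z, h2, h1⟩
  | trans _ _ _ _ _ ih1 ih2 =>
    obtain ⟨z, h1, h2⟩ := ih1
    obtain ⟨z', h3, h4⟩ := ih2
    obtain ⟨t, h5, h6⟩ := hc _ _ _ h2 h3
    exact ⟨t, h1.trans h5, h4.trans h6⟩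

/-- Irreducible words. -/
def Irr (R : Set (List A × List A)) (u : List A) : Prop := ∀ v, ¬ Step R u v

theorem Irr.steps_eq {u v : List A} (hu : Irr R u) (h : Steps R u v) : v = u := by
  rcases ReflTransGen.cases_head h with rfl | ⟨b1, hb1, _⟩
  · rfl
  · exact absurd hb1 (hu _)

theorem steps_of_eq (hc : Confluent R) {u v : List A} (hv : Irr R v) (h : cl R u = cl R v) :
    Steps R u v := by
  obtain ⟨z, h1, h2⟩ := join_of_eq hc h
  rw [hv.steps_eq h2] at h1
  exact h1

theorem cl_eq_iff (hc : Confluent R) {u v : List A} (hv : Irr R v) :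
    cl R u = cl R v ↔ Steps R u v := ⟨steps_of_eq hc hv, cl_eq_of_steps⟩

theorem wf_of_lengthReducing (hl : LengthReducing R) : WellFounded fun a b => Step R b a := by
  refine Subrelation.wf (r := fun a b : List A => a.length < b.length) ?_
    (measure List.length).wf
  rintro a b ⟨x, y, l, r, hr, rfl, rfl⟩
  have := hl _ _ hr
  simp only [List.length_append]
  omega

theorem exists_irr (hl : LengthReducing R) (u : List A) : ∃ v, Irr R v ∧ Steps R u v := by
  induction u using (wf_of_lengthReducing hl).induction with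
  | _ u ih =>
    by_cases h : Irr R u
    · exact ⟨u, h, ReflTransGen.refl⟩
    · simp only [Irr, not_forall, not_not] at h
      obtain ⟨v, hv⟩ := h
      obtain ⟨w, hw1, hw2⟩ := ih v hv
      exact ⟨w, hw1, ReflTransGen.head hv hw2⟩

theorem confluent_of_local (hl : LengthReducing R)
    (lc : ∀ a b c, Step R a b → Step R a c → ∃ d, Steps R b d ∧ Steps R c d) : Confluent R :=
  newman (wf_of_lengthReducing hl) lc

/-- The critical pair criterion: it suffices to consider overlaps. -/
theorem confluent_of_critical (hl : LengthReducing R)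
    (h1 : ∀ l r l' r', (l, r) ∈ R → (l', r') ∈ R → ∀ x y, l = x ++ l' ++ y →
      ∃ d, Steps R r d ∧ Steps R (x ++ r' ++ y) d)
    (h2 : ∀ l r l' r', (l, r) ∈ R → (l', r') ∈ R → ∀ x y z, l = x ++ y → l' = y ++ z →
      x ≠ [] → y ≠ [] → z ≠ [] →
      ∃ d, Steps R (r ++ z) d ∧ Steps R (x ++ r') d) : Confluent R := by
  refine confluent_of_local hl ?_
  -- the key case: the first redex starts not later than the second one
  have key : ∀ x y x' y' l r l' r' : List A, (l, r) ∈ R → (l', r') ∈ R →
      x ++ l ++ y = x' ++ l' ++ y' → x.length ≤ x'.length →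
      ∃ d, Steps R (x ++ r ++ y) d ∧ Steps R (x' ++ r' ++ y') d := by
    intro x y x' y' l r l' r' hr hr' he hle
    have hx : x <+: x' := by
      refine List.prefix_of_prefix_length_le (l₃ := x ++ l ++ y) ⟨l ++ y, by simp⟩ ?_ hle
      rw [he]
      exact ⟨l' ++ y', by simp⟩
    obtain ⟨t, rfl⟩ := hx
    simp only [List.append_assoc] at he
    rw [List.append_cancel_left_eq] at he
    -- `l ++ y = t ++ (l' ++ y')`
    rcases List.append_eq_append_iff.1 he with ⟨s, hs1, hs2⟩ | ⟨s, hs1, hs2⟩
    · -- `t = l ++ s`, `y = s ++ l' ++ y'`: disjoint redexes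
      subst hs1 hs2
      refine ⟨x ++ r ++ s ++ r' ++ y', ?_, ?_⟩
      · have : Step R (x ++ r ++ (s ++ (l' ++ y'))) (x ++ r ++ s ++ r' ++ y') :=
          ⟨x ++ r ++ s, y', l', r', hr', by simp, by simp⟩
        exact ReflTransGen.single this
      · have : Step R (x ++ (l ++ s) ++ r' ++ y') (x ++ r ++ s ++ r' ++ y') :=
          ⟨x, s ++ r' ++ y', l, r, hr, by simp, by simp⟩
        exact ReflTransGen.single this
    · -- `l = t ++ s`, `l' ++ y' = s ++ y`
      rcases List.append_eq_append_iff.1 hs2 with ⟨q, hq1, hq2⟩ | ⟨q, hq1, hq2⟩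
      · -- `s = l' ++ q`, `y' = q ++ y`: inner redex
        subst hq1 hq2
        obtain ⟨d, hd1, hd2⟩ := h1 l r l' r' hr hr' t q (by rw [hs1]; simp)
        refine ⟨x ++ d ++ y, ?_, ?_⟩
        · exact (hd1.left x).right y
        · have := (hd2.left x).right y
          simpa using this
      · -- `l' = s ++ q`, `y = q ++ y'`
        subst hq2
        rcases eq_or_ne q [] with rfl | hq
        · simp only [List.append_nil] at hq1
          subst hq1
          obtain ⟨d, hd1, hd2⟩ := h1 l r l' r' hr hr' t [] (by rw [hs1]; simp)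
          refine ⟨x ++ d ++ y', ?_, ?_⟩
          · have := (hd1.left x).right y'
            simpa using this
          · have := (hd2.left x).right y'
            simpa using this
        rcases eq_or_ne s [] with rfl | hs
        · -- disjoint
          simp only [List.append_nil] at hs1
          simp only [List.nil_append] at hq1
          subst hs1 hq1
          refine ⟨x ++ r ++ r' ++ y', ?_, ?_⟩
          · have : Step R (x ++ r ++ (l' ++ y')) (x ++ r ++ r' ++ y') :=
              ⟨x ++ r, y', l', r', hr', by simp, by simp⟩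
            exact ReflTransGen.single this
          · have : Step R (x ++ l ++ r' ++ y') (x ++ r ++ r' ++ y') :=
              ⟨x, r' ++ y', l, r, hr, by simp, by simp⟩
            exact ReflTransGen.single this
        rcases eq_or_ne t [] with rfl | ht
        · -- `l = s` is a prefix of `l'`
          simp only [List.nil_append] at hs1
          subst hs1
          obtain ⟨d, hd1, hd2⟩ := h1 l' r' l r hr' hr [] q (by rw [hq1]; simp)
          refine ⟨x ++ d ++ y', ?_, ?_⟩
          · have := (hd2.left x).right y'
            simpa using this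
          · have := (hd1.left x).right y'
            simpa using this
        obtain ⟨d, hd1, hd2⟩ := h2 l r l' r' hr hr' t s q hs1 hq1 ht hs hq
        refine ⟨x ++ d ++ y', ?_, ?_⟩
        · have := (hd1.left x).right y'
          simpa using this
        · have := (hd2.left x).right y'
          simpa using this
  rintro a b c ⟨x, y, l, r, hr, rfl, rfl⟩ ⟨x', y', l', r', hr', he, rfl⟩
  rcases le_total x.length x'.length with h | h
  · exact key x y x' y' l r l' r' hr hr' he h
  · obtain ⟨d, hd1, hd2⟩ := key x' y' x y l' r' l r hr' hr he.symm h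
    exact ⟨d, hd2, hd1⟩

end Pool.Agent.Q221.Conj
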