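import Mathlib
import Pool.Agent.Q221.Conj.Rew

set_option autoImplicit false

/-!
# Renaming the letters of a string rewriting system
-/

namespace Pool.Agent.Q221.Conj

open Relation

variable {A B : Type}

/-- Renaming of letters. -/
def mapR (e : A ≃ B) (R : Set (List A × List A)) : Set (List B × List B) :=
  {p | (p.1.map e.symm, p.2.map e.symm) ∈ R}

theorem map_map_symm (e : A ≃ B) (l : List B) : (l.map e.symm).map e = l := by
  simp

theorem map_symm_map (e : A ≃ B) (l : List A) : (l.map e).map e.symm = l := by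
  simp

theorem mem_mapR_symm (e : A ≃ B) {R : Set (List A × List A)} (l r : List B)
    (h : (l, r) ∈ mapR e R) : (l.map e.symm, r.map e.symm) ∈ R := h

theorem mem_mapR (e : A ≃ B) (R : Set (List A × List A)) (l r : List A) :
    (l.map e, r.map e) ∈ mapR e R ↔ (l, r) ∈ R := by
  change ((l.map e).map e.symm, (r.map e).map e.symm) ∈ R ↔ _
  simp only [map_symm_map]

theorem mapR_finite (e : A ≃ B) {R : Set (List A × List A)} (h : R.Finite) : (mapR e R).Finite := by
  refine (h.image fun p => (p.1.map e, p.2.map e)).subset ?_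
  rintro ⟨l, r⟩ hlr
  exact ⟨(l.map e.symm, r.map e.symm), hlr, by simp only [map_map_symm]⟩

theorem mapR_monadic (e : A ≃ B) {R : Set (List A × List A)} (h : Monadic R) :
    Monadic (mapR e R) := by
  intro l r hlr
  have := h _ _ hlr
  simpa using this

theorem mapR_lengthReducing (e : A ≃ B) {R : Set (List A × List A)} (h : LengthReducing R) :
    LengthReducing (mapR e R) := by
  intro l r hlr
  have := h _ _ hlr
  simpa using this

theorem step_map (e : A ≃ B) {R : Set (List A × List A)} {u v : List A} (h : Step R u v) :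
    Step (mapR e R) (u.map e) (v.map e) := by
  obtain ⟨x, y, l, r, hr, rfl, rfl⟩ := h
  exact ⟨x.map e, y.map e, l.map e, r.map e, (mem_mapR e R l r).2 hr, by simp, by simp⟩

theorem step_symm (e : A ≃ B) {R : Set (List A × List A)} {u v : List B}
    (h : Step (mapR e R) u v) : Step R (u.map e.symm) (v.map e.symm) := by
  obtain ⟨x, y, l, r, hr, rfl, rfl⟩ := h
  exact ⟨x.map e.symm, y.map e.symm, l.map e.symm, r.map e.symm, hr, by simp, by simp⟩

theorem steps_map (e : A ≃ B) {R : Set (List A × List A)} {u v : List A} (h : Steps R u v) :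
    Steps (mapR e R) (u.map e) (v.map e) :=
  ReflTransGen.lift (p := Step (mapR e R)) (fun u => u.map e) (fun _ _ h => step_map e h) _ _ h

theorem steps_symm (e : A ≃ B) {R : Set (List A × List A)} {u v : List B}
    (h : Steps (mapR e R) u v) : Steps R (u.map e.symm) (v.map e.symm) :=
  ReflTransGen.lift (p := Step R) (fun u => u.map e.symm) (fun _ _ h => step_symm e h) _ _ h

theorem mapR_confluent (e : A ≃ B) {R : Set (List A × List A)} (h : Confluent R) :
    Confluent (mapR e R) := by
  intro u v w huv huw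
  obtain ⟨z, h1, h2⟩ := h _ _ _ (steps_symm e huv) (steps_symm e huw)
  have h1' := steps_map e h1
  have h2' := steps_map e h2
  rw [map_map_symm] at h1' h2'
  exact ⟨_, h1', h2'⟩

/-- The homomorphism induced by a renaming. -/
def homOf (R : Set (List A × List A)) (R' : Set (List B × List B)) (f : A → B)
    (hf : ∀ l r, (l, r) ∈ R → (l.map f, r.map f) ∈ R') : Mon R →* Mon R' :=
  (con R).lift ((con R').mk'.comp (FreeMonoid.map f)) (by
    apply Con.conGen_le.2
    intro u v huv
    have := hf _ _ huv
    change ((FreeMonoid.map f u : FreeMonoid B) : Mon R') = (FreeMonoid.map f v : FreeMonoid B)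
    rw [Con.eq]
    exact ConGen.Rel.of _ _ this)

theorem homOf_cl (R : Set (List A × List A)) (R' : Set (List B × List B)) (f : A → B)
    (hf : ∀ l r, (l, r) ∈ R → (l.map f, r.map f) ∈ R') (u : List A) :
    homOf R R' f hf (cl R u) = cl R' (u.map f) := rfl

/-- The isomorphism induced by a renaming. -/
noncomputable def mapEquiv (e : A ≃ B) (R : Set (List A × List A)) : Mon R ≃* Mon (mapR e R) :=
  MulEquiv.ofBijective
    (homOf R (mapR e R) e (fun l r h => (mem_mapR e R l r).2 h)) (by
    refine Function.bijective_iff_has_inverse.2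
      ⟨homOf (mapR e R) R e.symm (mem_mapR_symm e), ?_, ?_⟩
    · intro x
      obtain ⟨u, rfl⟩ := cl_surj x
      rw [homOf_cl, homOf_cl, map_symm_map]
    · intro x
      obtain ⟨u, rfl⟩ := cl_surj x
      rw [homOf_cl, homOf_cl, map_map_symm])

theorem mapEquiv_cl (e : A ≃ B) (R : Set (List A × List A)) (u : List A) :
    mapEquiv e R (cl R u) = cl (mapR e R) (u.map e) := rfl

section Conj

variable {M N : Type} [Monoid M] [Monoid N]

theorem PConj.map (φ : M ≃* N) {a b : M} (h : PConj a b) : PConj (φ a) (φ b) := by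
  obtain ⟨u, v, rfl, rfl⟩ := h
  exact ⟨φ u, φ v, map_mul φ _ _, map_mul φ _ _⟩

theorem pConj_map_iff (φ : M ≃* N) (a b : M) : PConj (φ a) (φ b) ↔ PConj a b := by
  constructor
  · intro h
    have := PConj.map φ.symm h
    simpa using this
  · exact PConj.map φ

theorem IsZeroElt.map (φ : M ≃* N) {z : M} (h : IsZeroElt z) : IsZeroElt (φ z) := by
  intro m
  obtain ⟨h1, h2⟩ := h (φ.symm m)
  constructor
  · rw [← φ.apply_symm_apply m, ← map_mul, h1]
  · rw [← φ.apply_symm_apply m, ← map_mul, h2]

theorem PSet.map (φ : M ≃* N) {a g : M} (h : g ∈ PSet a) : φ g ∈ PSet (φ a) := by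
  intro z hz
  have hz' := hz.map φ.symm
  obtain ⟨h1, h2⟩ := h _ hz'
  constructor
  · rintro rfl
    rw [h1 (by simp)]
    simp
  · intro hne m hm
    have := h2 (fun h => hne (by rw [h]; simp)) (φ.symm m) (by
      rw [← hm]; simp)
    have h3 := congrArg φ this
    simpa using h3

theorem CConj.map (φ : M ≃* N) {a b : M} (h : CConj a b) : CConj (φ a) (φ b) := by
  obtain ⟨g, hg, h', hh, h1, h2⟩ := h
  refine ⟨φ g, PSet.map φ hg, φ h', PSet.map φ hh, ?_, ?_⟩
  · rw [← map_mul, h1, map_mul]
  · rw [← map_mul, h2, map_mul]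

theorem cConj_map_iff (φ : M ≃* N) (a b : M) : CConj (φ a) (φ b) ↔ CConj a b := by
  constructor
  · intro h
    have := CConj.map φ.symm h
    simpa using this
  · exact CConj.map φ

end Conj

end Pool.Agent.Q221.Conj
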