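import Mathlib
import Pool.Agent.Q221.Conj.Rew
import Pool.Agent.Q221.Conj.Base

set_option autoImplicit false

/-!
# A finite monadic confluent system with undecidable `p`-conjugacy problem
-/

namespace Pool.Agent.Q221.Conj.Monad

open Relation

/-- The letters. -/
inductive L (S : Type) (B : ℕ)
  | X | W | Y | Z | o
  | c (a : S)
  | d (i : S × S)
  | sg (r : {r : List S // r.length ≤ B})
  | ta (r : {r : List S // r.length ≤ B})

variable {S : Type} {B : ℕ}

instance [Finite S] : Finite {r : List S // r.length ≤ B} := List.finite_length_le S B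

instance [Finite S] : Finite (L S B) := by
  classical
  let f : L S B → (Fin 5 ⊕ S) ⊕ ((S × S) ⊕ ({r : List S // r.length ≤ B} × Bool)) := fun s =>
    match s with
    | .X => .inl (.inl 0)
    | .W => .inl (.inl 1)
    | .Y => .inl (.inl 2)
    | .Z => .inl (.inl 3)
    | .o => .inl (.inl 4)
    | .c a => .inl (.inr a)
    | .d i => .inr (.inl i)
    | .sg r => .inr (.inr (r, true))
    | .ta r => .inr (.inr (r, false))
  apply Finite.of_injective f
  intro x y h
  cases x <;> cases y <;> simp_all [f]

variable (P : S → S → List S)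

/-- The rules. -/
inductive Rule : List (L S B) → List (L S B) → Prop
  | yz (h : ([] : List S).length ≤ B) : Rule [.Y, .Z] [.sg ⟨[], h⟩]
  | wx (h : ([] : List S).length ≤ B) : Rule [.W, .X] [.ta ⟨[], h⟩]
  | ds (i : S × S) (h : ([] : List S).length ≤ B) (h' : (P i.1 i.2).reverse.length ≤ B) :
      Rule [.d i, .sg ⟨[], h⟩] [.sg ⟨(P i.1 i.2).reverse, h'⟩]
  | sc (a : S) (r : List S) (h : (a :: r).length ≤ B) (h' : r.length ≤ B) :
      Rule [.sg ⟨a :: r, h⟩, .c a] [.sg ⟨r, h'⟩]
  | td (i : S × S) (h : ([] : List S).length ≤ B) (h' : [i.1, i.2].length ≤ B) :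
      Rule [.ta ⟨[], h⟩, .d i] [.ta ⟨[i.1, i.2], h'⟩]
  | ct (a : S) (r : List S) (h : (a :: r).length ≤ B) (h' : r.length ≤ B) :
      Rule [.c a, .ta ⟨a :: r, h⟩] [.ta ⟨r, h'⟩]
  | st (r r' : {r : List S // r.length ≤ B}) : Rule [.sg r, .ta r'] [.o]
  | ts (r r' : {r : List S // r.length ≤ B}) : Rule [.ta r, .sg r'] [.o]
  | ol (x : L S B) : Rule [.o, x] [.o]
  | or (x : L S B) : Rule [x, .o] [.o]

/-- The system. -/
def R : Set (List (L S B) × List (L S B)) := {p | Rule P p.1 p.2}

variable {P}

theorem rule_length {l r : List (L S B)} (h : Rule P l r) : l.length = 2 ∧ r.length = 1 := by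
  cases h <;> simp

theorem mem_length {l r : List (L S B)} (h : (l, r) ∈ R P) : l.length = 2 ∧ r.length = 1 :=
  rule_length (P := P) (l := l) (r := r) h

theorem R_finite [Finite S] : (R P : Set (List (L S B) × List (L S B))).Finite := by
  refine ((List.finite_length_le (L S B) 2).prod (List.finite_length_le (L S B) 2)).subset ?_
  rintro ⟨l, r⟩ h
  obtain ⟨h1, h2⟩ := mem_length h
  constructor
  · change l.length ≤ 2
    omega
  · change r.length ≤ 2
    omega

theorem R_monadic : Monadic (R P : Set (List (L S B) × List (L S B))) := by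
  intro l r h
  obtain ⟨h1, h2⟩ := mem_length h
  omega

theorem R_lengthReducing : LengthReducing (R P : Set (List (L S B) × List (L S B))) := by
  intro l r h
  obtain ⟨h1, h2⟩ := mem_length h
  omega

theorem rule_det {l r r' : List (L S B)} (h : Rule P l r) (h' : Rule P l r') : r = r' := by
  cases h <;> cases h' <;> rfl

theorem rule_overlap {a b c x y : L S B} (h : Rule P [a, b] [x]) (h' : Rule P [b, c] [y]) :
    Rule P [x, c] [.o] ∧ Rule P [a, y] [.o] := by
  cases h <;> cases h' <;> first
    | exact ⟨.ol _, .or _⟩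
    | exact ⟨.ol _, .ol _⟩
    | exact ⟨.st _ _, .or _⟩
    | exact ⟨.ts _ _, .or _⟩
    | exact ⟨.ol _, .st _ _⟩
    | exact ⟨.ol _, .ts _ _⟩
    | exact ⟨.st _ _, .st _ _⟩
    | exact ⟨.st _ _, .ts _ _⟩
    | exact ⟨.ts _ _, .st _ _⟩
    | exact ⟨.ts _ _, .ts _ _⟩
    | exact ⟨.or _, .or _⟩

theorem R_confluent : Confluent (R P : Set (List (L S B) × List (L S B))) := by
  refine confluent_of_critical R_lengthReducing ?_ ?_
  · intro l r l' r' h h' x y he
    have h1 := mem_length h
    have h2 := mem_length h'
    have hl := congrArg List.length he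
    simp only [List.length_append] at hl
    have hx : x = [] := List.eq_nil_of_length_eq_zero (by omega)
    have hy : y = [] := List.eq_nil_of_length_eq_zero (by omega)
    subst hx hy
    simp only [List.nil_append, List.append_nil] at he
    subst he
    have := rule_det h h'
    subst this
    exact ⟨r, ReflTransGen.refl, by simpa using ReflTransGen.refl⟩
  · intro l r l' r' h h' x y z he he' hx hy hz
    have h1 := mem_length h
    have h2 := mem_length h'
    have hl := congrArg List.length he
    have hl' := congrArg List.length he'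
    simp only [List.length_append] at hl hl'
    have hx' := List.length_pos_iff.2 hx
    have hy' := List.length_pos_iff.2 hy
    have hz' := List.length_pos_iff.2 hz
    obtain ⟨a, rfl⟩ := List.length_eq_one_iff.1 (show x.length = 1 by omega)
    obtain ⟨b, rfl⟩ := List.length_eq_one_iff.1 (show y.length = 1 by omega)
    obtain ⟨c, rfl⟩ := List.length_eq_one_iff.1 (show z.length = 1 by omega)
    obtain ⟨s, rfl⟩ := List.length_eq_one_iff.1 h1.2
    obtain ⟨t, rfl⟩ := List.length_eq_one_iff.1 h2.2
    subst he he'
    obtain ⟨k1, k2⟩ := rule_overlap h h'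
    exact ⟨[.o], ReflTransGen.single ⟨[], [], _, _, k1, by simp, by simp⟩,
      ReflTransGen.single ⟨[], [], _, _, k2, by simp, by simp⟩⟩

/-- The first word. -/
def wa (hB : 0 ≤ B) (w : List S) : List (L S B) :=
  [.X, .sg ⟨[], hB⟩] ++ (w.reverse.map .c ++ [.W])

/-- The second word. -/
def wb (hB : 0 ≤ B) (K : S) : List (L S B) := [.Z, .c K, .ta ⟨[], hB⟩, .Y]

theorem split_unique {T : Type} {x y u v : List T} {t s : T} (h : x ++ [t] ++ y = u ++ [s] ++ v)
    (hu : t ∉ u) (hv : t ∉ v) : t = s ∧ x = u ∧ y = v := by
  simp only [List.append_assoc, List.cons_append, List.nil_append] at h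
  rcases List.append_eq_append_iff.1 h with ⟨q, hq1, hq2⟩ | ⟨q, hq1, hq2⟩
  · rcases q with _ | ⟨q0, q⟩
    · simp only [List.append_nil] at hq1
      simp only [List.nil_append, List.cons.injEq] at hq2
      exact ⟨hq2.1, hq1.symm, hq2.2⟩
    · exfalso
      simp only [List.cons_append, List.cons.injEq] at hq2
      apply hu
      rw [hq1, hq2.1]
      simp
  · rcases q with _ | ⟨q0, q⟩
    · simp only [List.append_nil] at hq1
      simp only [List.nil_append, List.cons.injEq] at hq2
      exact ⟨hq2.1.symm, hq1, hq2.2.symm⟩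
    · exfalso
      simp only [List.cons_append, List.cons.injEq] at hq2
      apply hv
      rw [hq2.2]
      simp

/-- The letters that occur as right sides of rules. -/
def IsRes : L S B → Prop
  | .sg _ => True
  | .ta _ => True
  | .o => True
  | _ => False

theorem isRes_of_rule {l : List (L S B)} {t : L S B} (h : Rule P l [t]) : IsRes t := by
  cases h <;> trivial

/-- The ancestors of the first word. -/
inductive FA (P : S → S → List S) (w : List S) : List (L S B) → Prop
  | one (p : List (S × S)) (r : {r : List S // r.length ≤ B}) (q : List S)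
      (h : q = r.1 ++ ((Fm P p).reverse ++ w.reverse)) :
      FA P w ((.X :: p.map .d) ++ [.sg r] ++ (q.map .c ++ [.W]))
  | two (p : List (S × S)) (q : List S) (h : q = (Fm P p).reverse ++ w.reverse) :
      FA P w ((.X :: p.map .d) ++ [.Y, .Z] ++ (q.map .c ++ [.W]))

/-- The ancestors of the second word. -/
inductive FB (K : S) : List (L S B) → Prop
  | one (p : List (S × S)) (r : {r : List S // r.length ≤ B}) (q : List S)
      (h : q = K :: ((Hm p).reverse ++ r.1.reverse)) :
      FB K ((.Z :: q.map .c) ++ [.ta r] ++ (p.map .d ++ [.Y]))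
  | two (p : List (S × S)) (q : List S) (h : q = K :: (Hm p).reverse) :
      FB K ((.Z :: q.map .c) ++ [.W, .X] ++ (p.map .d ++ [.Y]))

theorem FA_back {w : List S} {z z' : List (L S B)} (h : Step (R P) z z') (hz : FA P w z') :
    FA P w z := by
  obtain ⟨x, y, l, r, hr, rfl, rfl⟩ := h
  obtain ⟨t, rfl⟩ := List.length_eq_one_iff.1 (rule_length hr).2
  have ht := isRes_of_rule hr
  generalize hg : x ++ [t] ++ y = g at hz
  cases hz with
  | one p r q h =>
    obtain ⟨rfl, rfl, rfl⟩ := split_unique hg
      (by
        rcases t with _ | _ | _ | _ | _ | _ | _ | _ | _ <;> simp [IsRes] at ht ⊢)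
      (by
        rcases t with _ | _ | _ | _ | _ | _ | _ | _ | _ <;> simp [IsRes] at ht ⊢)
    cases hr with
    | yz h0 =>
      exact FA.two p q (by simpa using h)
    | ds i h0 h1 =>
      have := FA.one (B := B) (P := P) (w := w) (p ++ [i]) ⟨[], h0⟩ q (by
        rw [h]
        simp [Fm])
      simpa using this
    | sc a r h0 h1 =>
      have := FA.one (B := B) (P := P) (w := w) p ⟨a :: r, h0⟩ (a :: q) (by
        rw [h]
        simp)
      simpa using this
  | two p q h =>
    exfalso
    have hm : t ∈ x ++ [t] ++ y := by simp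
    rw [hg] at hm
    rcases t with _ | _ | _ | _ | _ | _ | _ | _ | _ <;> simp [IsRes] at ht hm

theorem FB_back {K : S} {z z' : List (L S B)} (h : Step (R P) z z') (hz : FB K z') :
    FB K z := by
  obtain ⟨x, y, l, r, hr, rfl, rfl⟩ := h
  obtain ⟨t, rfl⟩ := List.length_eq_one_iff.1 (rule_length hr).2
  have ht := isRes_of_rule hr
  generalize hg : x ++ [t] ++ y = g at hz
  cases hz with
  | one p r q h =>
    obtain ⟨rfl, rfl, rfl⟩ := split_unique hg
      (by
        rcases t with _ | _ | _ | _ | _ | _ | _ | _ | _ <;> simp [IsRes] at ht ⊢)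
      (by
        rcases t with _ | _ | _ | _ | _ | _ | _ | _ | _ <;> simp [IsRes] at ht ⊢)
    cases hr with
    | wx h0 =>
      exact FB.two p q (by simpa using h)
    | td i h0 h1 =>
      have := FB.one (B := B) (K := K) (i :: p) ⟨[], h0⟩ q (by
        rw [h]
        simp [Hm])
      simpa using this
    | ct a r h0 h1 =>
      have := FB.one (B := B) (K := K) p ⟨a :: r, h0⟩ (q ++ [a]) (by
        rw [h]
        simp)
      simpa using this
  | two p q h =>
    exfalso
    have hm : t ∈ x ++ [t] ++ y := by simp
    rw [hg] at hm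
    rcases t with _ | _ | _ | _ | _ | _ | _ | _ | _ <;> simp [IsRes] at ht hm

theorem FA_of_steps {hB : 0 ≤ B} {w : List S} {z : List (L S B)}
    (h : Steps (R P) z (wa hB w)) : FA P w z := by
  induction h using ReflTransGen.head_induction_on with
  | refl =>
    have := FA.one (B := B) (P := P) (w := w) [] ⟨[], hB⟩ w.reverse (by simp [Fm])
    simpa [wa] using this
  | head h _ ih => exact FA_back h ih

theorem FB_of_steps {hB : 0 ≤ B} {K : S} {z : List (L S B)}
    (h : Steps (R P) z (wb hB K)) : FB K z := by
  induction h using ReflTransGen.head_induction_on with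
  | refl =>
    have := FB.one (B := B) (K := K) [] ⟨[], hB⟩ [K] (by simp [Hm])
    simpa [wb] using this
  | head h _ ih => exact FB_back h ih

end Pool.Agent.Q221.Conj.Monad
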