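import Mathlib
import Pool.Agent.Q221.Conj.Rew

set_option autoImplicit false

/-!
# Two-sided stack machines as length-reducing confluent string rewriting systems
-/

namespace Pool.Agent.Q221.Conj.Two

open Relation

/-- Two stack machines, one of them reads the input from the left to the right and has its stack on
the left, the other one reads the input from the right to the left and has its stack on the
right. -/
structure Mach where
  I : Type
  Q : Type
  T : Type
  Q' : Type
  T' : Type
  rd : Q → I → Option T → Q → Prop
  pp : T → Q → Q → Prop
  rd' : Q' → I → Option T' → Q' → Prop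
  pp' : T' → Q' → Q' → Prop
  rd_det : ∀ q z t q1 t' q1', rd q z t q1 → rd q z t' q1' → t = t' ∧ q1 = q1'
  pp_det : ∀ t q q1 q1', pp t q q1 → pp t q q1' → q1 = q1'
  rd_det' : ∀ q z t q1 t' q1', rd' q z t q1 → rd' q z t' q1' → t = t' ∧ q1 = q1'
  pp_det' : ∀ t q q1 q1', pp' t q q1 → pp' t q q1' → q1 = q1'
  excl : ∀ q z t q1 t' q1', rd q z t q1 → ¬ pp t' q q1'
  excl' : ∀ q z t q1 t' q1', rd' q z t q1 → ¬ pp' t' q q1'

/-- The letters. -/
inductive L (M : Mach)
  | inp (z : M.I)
  | pad
  | rs (q : M.Q)
  | ls (p : M.Q')
  | sr (t : M.T)
  | sl (t : M.T')
  | J
  | o

variable {M : Mach}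

/-- The rules. -/
inductive Rule (M : Mach) : List (L M) → List (L M) → Prop
  | r1 (q : M.Q) (z : M.I) (t : Option M.T) (q1 : M.Q) (h : M.rd q z t q1) :
      Rule M [.rs q, .inp z, .pad] (t.toList.map .sr ++ [.rs q1])
  | r2 (t : M.T) (q q1 : M.Q) (h : M.pp t q q1) : Rule M [.sr t, .rs q] [.rs q1]
  | l1 (p : M.Q') (z : M.I) (t : Option M.T') (p1 : M.Q') (h : M.rd' p z t p1) :
      Rule M [.inp z, .pad, .ls p] (.ls p1 :: t.toList.map .sl)
  | l2 (t : M.T') (p p1 : M.Q') (h : M.pp' t p p1) : Rule M [.ls p, .sl t] [.ls p1]
  | zz (q : M.Q) (p : M.Q') : Rule M [.rs q, .ls p] [.o]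
  | ol (x : L M) : Rule M [.o, x] [.o]
  | or (x : L M) : Rule M [x, .o] [.o]

/-- The system. -/
def R (M : Mach) : Set (List (L M) × List (L M)) := {p | Rule M p.1 p.2}

theorem mem_R {l r : List (L M)} : (l, r) ∈ R M ↔ Rule M l r := Iff.rfl

theorem rule_length {l r : List (L M)} (h : Rule M l r) :
    r.length < l.length ∧ 2 ≤ l.length ∧ l.length ≤ 3 ∧ 1 ≤ r.length := by
  cases h with
  | r1 q z t q1 h => rcases t with _ | t <;> simp
  | l1 q z t q1 h => rcases t with _ | t <;> simp
  | _ => simp

theorem R_lengthReducing : LengthReducing (R M) := fun _ _ h => (rule_length (mem_R.1 h)).1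

theorem R_finite [Finite (L M)] : (R M).Finite := by
  refine ((List.finite_length_le (L M) 3).prod (List.finite_length_le (L M) 3)).subset ?_
  rintro ⟨l, r⟩ h
  have := rule_length (mem_R.1 h)
  constructor
  · change l.length ≤ 3
    omega
  · change r.length ≤ 3
    omega

theorem single {l r : List (L M)} (h : Rule M l r) (x y : List (L M)) :
    Steps (R M) (x ++ l ++ y) (x ++ r ++ y) :=
  ReflTransGen.single ⟨x, y, l, r, h, rfl, rfl⟩

theorem dead_left (x : List (L M)) : Steps (R M) (x ++ [.o]) [.o] := by
  induction x with
  | nil => exact ReflTransGen.refl
  | cons a x ih =>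
    refine (Steps.left ih [a]).trans ?_
    exact single (Rule.or a) [] []

theorem dead_right (y : List (L M)) : Steps (R M) (.o :: y) [.o] := by
  induction y with
  | nil => exact ReflTransGen.refl
  | cons a y ih =>
    have := single (Rule.ol a) [] y
    refine ReflTransGen.trans ?_ ih
    simpa using this

theorem dead_o (x y : List (L M)) : Steps (R M) (x ++ [.o] ++ y) [.o] :=
  ((dead_left x).right y).trans (dead_right y)

theorem dead_of_mem {x : List (L M)} (h : L.o ∈ x) : Steps (R M) x [.o] := by
  obtain ⟨s, t, rfl⟩ := List.append_of_mem h
  have := dead_o s t
  simpa using this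

theorem dead_qp (x y : List (L M)) (q : M.Q) (p : M.Q') :
    Steps (R M) (x ++ [.rs q, .ls p] ++ y) [.o] :=
  (single (Rule.zz q p) x y).trans (dead_o x y)

theorem rule_det {l r r' : List (L M)} (h : Rule M l r) (h' : Rule M l r') : r = r' := by
  cases h with
  | r1 q z t q1 h =>
    cases h' with
    | r1 _ _ t' q1' h' =>
      obtain ⟨rfl, rfl⟩ := M.rd_det _ _ _ _ _ _ h h'
      rfl
  | r2 t q q1 h =>
    cases h' with
    | r2 _ _ q1' h' =>
      obtain rfl := M.pp_det _ _ _ _ h h'
      rfl
  | l1 q z t q1 h =>
    cases h' with
    | l1 _ _ t' q1' h' =>
      obtain ⟨rfl, rfl⟩ := M.rd_det' _ _ _ _ _ _ h h'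
      rfl
  | l2 t q q1 h =>
    cases h' with
    | l2 _ _ q1' h' =>
      obtain rfl := M.pp_det' _ _ _ _ h h'
      rfl
  | zz q p => cases h'; rfl
  | ol x => cases h' <;> rfl
  | or x => cases h' <;> rfl

theorem R_confluent : Confluent (R M) := by
  refine confluent_of_critical R_lengthReducing ?_ ?_
  · intro l r l' r' h h' x y he
    rw [mem_R] at h h'
    by_cases hxy : x = [] ∧ y = []
    · obtain ⟨rfl, rfl⟩ := hxy
      simp only [List.nil_append, List.append_nil] at he
      subst he
      have := rule_det h h'
      subst this
      exact ⟨r, ReflTransGen.refl, by simpa using ReflTransGen.refl⟩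
    · exfalso
      have h1 := rule_length h
      have h2 := rule_length h'
      have hl := congrArg List.length he
      simp only [List.length_append] at hl
      have hxy' : x.length + y.length ≠ 0 := by
        intro h0
        apply hxy
        exact ⟨List.eq_nil_of_length_eq_zero (by omega), List.eq_nil_of_length_eq_zero (by omega)⟩
      have hl' : l'.length = 2 := by omega
      have hl3 : l.length = 3 := by omega
      obtain ⟨a, b, rfl⟩ := List.length_eq_two.1 hl'
      have hcase : (∃ c, x = [c] ∧ y = []) ∨ (∃ c, x = [] ∧ y = [c]) := by
        rcases x with _ | ⟨c, x⟩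
        · right
          simp only [List.length_nil, List.length_cons] at hl
          obtain ⟨c, rfl⟩ := List.length_eq_one_iff.1 (show y.length = 1 by omega)
          exact ⟨c, rfl, rfl⟩
        · left
          simp only [List.length_nil, List.length_cons] at hl
          have e1 : x = [] := List.eq_nil_of_length_eq_zero (by omega)
          have e2 : y = [] := List.eq_nil_of_length_eq_zero (by omega)
          subst e1 e2
          exact ⟨c, rfl, rfl⟩
      rcases hcase with ⟨c, rfl, rfl⟩ | ⟨c, rfl, rfl⟩
      · simp only [List.cons_append, List.nil_append] at he
        subst he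
        cases h <;> cases h'
      · simp only [List.cons_append, List.nil_append] at he
        subst he
        cases h <;> cases h'
  · intro l r l' r' h h' x y z he he' hx hy hz
    rw [mem_R] at h h'
    suffices H : Steps (R M) (r ++ z) [.o] ∧ Steps (R M) (x ++ r') [.o] from ⟨[.o], H.1, H.2⟩
    have key : ∀ r0 : List (L M), Rule M l r0 →
        (L.o ∈ l → L.o ∈ r0) := by
      intro r0 h0
      cases h0 <;> simp
    have key' : ∀ l0 r0 : List (L M), Rule M l0 r0 → (L.o ∈ l0 → L.o ∈ r0) := by
      intro l0 r0 h0
      cases h0 <;> simp
    by_cases ho : L.o ∈ x ∨ L.o ∈ y ∨ L.o ∈ z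
    · constructor
      · apply dead_of_mem
        rcases ho with ho | ho | ho
        · exact List.mem_append_left _ (key' _ _ h (by rw [he]; exact List.mem_append_left _ ho))
        · exact List.mem_append_left _ (key' _ _ h (by rw [he]; exact List.mem_append_right _ ho))
        · exact List.mem_append_right _ ho
      · apply dead_of_mem
        rcases ho with ho | ho | ho
        · exact List.mem_append_left _ ho
        · exact List.mem_append_right _ (key' _ _ h' (by rw [he']; exact List.mem_append_left _ ho))
        · exact List.mem_append_right _ (key' _ _ h' (by rw [he']; exact List.mem_append_right _ ho))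
    · have hol : L.o ∉ l := by
        rw [he]
        simp only [List.mem_append]
        tauto
      have hol' : L.o ∉ l' := by
        rw [he']
        simp only [List.mem_append]
        tauto
      rcases x with _ | ⟨x0, x⟩
      · exact absurd rfl hx
      rcases y with _ | ⟨y0, y⟩
      · exact absurd rfl hy
      rcases z with _ | ⟨z0, z⟩
      · exact absurd rfl hz
      subst he'
      cases h with
      | r1 q i t q1 h =>
        rcases x with _ | ⟨x1, _ | ⟨x2, x⟩⟩
        · -- overlap of length two
          simp only [List.cons_append, List.nil_append, List.cons.injEq] at he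
          obtain ⟨rfl, rfl, rfl⟩ := he
          simp only [List.cons_append, List.nil_append] at h' hol'
          cases h' with
          | l1 p i' t' p1 h' =>
            constructor
            · have := dead_qp (t.toList.map .sr) [] q1 p
              simpa using this
            · exact dead_qp [] (t'.toList.map .sl) q p1
        · simp only [List.cons_append, List.nil_append, List.cons.injEq] at he
          obtain ⟨rfl, rfl, rfl, he⟩ := he
          have hy : y = [] := by
            rcases y with _ | _
            · rfl
            · simp at he
          subst hy
          simp only [List.cons_append, List.nil_append] at h' hol'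
          cases h' with
          | or => simp at hol'
        · simp at he
      | r2 t q q1 h =>
        rcases x with _ | ⟨x1, x⟩
        · simp only [List.cons_append, List.nil_append, List.cons.injEq] at he
          obtain ⟨rfl, rfl, he⟩ := he
          have hy : y = [] := by
            rcases y with _ | _
            · rfl
            · simp at he
          subst hy
          simp only [List.cons_append, List.nil_append] at h' hol'
          cases h' with
          | r1 _ i t' q1' h' => exact absurd h (M.excl _ _ _ _ _ _ h')
          | zz _ p =>
            constructor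
            · exact dead_qp [] [] q1 p
            · exact dead_o [L.sr t] []
          | or => simp at hol'
        · rcases x with _ | _ <;> simp at he
      | l1 p i t p1 h =>
        rcases x with _ | ⟨x1, _ | ⟨x2, x⟩⟩
        · simp only [List.cons_append, List.nil_append, List.cons.injEq] at he
          obtain ⟨rfl, rfl, rfl⟩ := he
          simp only [List.cons_append, List.nil_append] at h' hol'
          cases h'
        · simp only [List.cons_append, List.nil_append, List.cons.injEq] at he
          obtain ⟨rfl, rfl, rfl, he⟩ := he
          have hy : y = [] := by
            rcases y with _ | _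
            · rfl
            · simp at he
          subst hy
          simp only [List.cons_append, List.nil_append] at h' hol'
          cases h' with
          | l2 t' _ p1' h' => exact absurd h' (M.excl' _ _ _ _ _ _ h)
          | or => simp at hol'
        · simp at he
      | l2 t p p1 h =>
        rcases x with _ | ⟨x1, x⟩
        · simp only [List.cons_append, List.nil_append, List.cons.injEq] at he
          obtain ⟨rfl, rfl, he⟩ := he
          have hy : y = [] := by
            rcases y with _ | _
            · rfl
            · simp at he
          subst hy
          simp only [List.cons_append, List.nil_append] at h' hol'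
          cases h' with
          | or => simp at hol'
        · rcases x with _ | _ <;> simp at he
      | zz q p =>
        rcases x with _ | ⟨x1, x⟩
        · simp only [List.cons_append, List.nil_append, List.cons.injEq] at he
          obtain ⟨rfl, rfl, he⟩ := he
          have hy : y = [] := by
            rcases y with _ | _
            · rfl
            · simp at he
          subst hy
          simp only [List.cons_append, List.nil_append] at h' hol'
          cases h' with
          | l2 t' _ p1' h' =>
            constructor
            · exact dead_o [] [L.sl t']
            · exact dead_qp [] [] q p1'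
          | or => simp at hol'
        · rcases x with _ | _ <;> simp at he
      | ol x => simp at hol
      | or x => simp at hol

end Pool.Agent.Q221.Conj.Two
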