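import Mathlib
import Pool.Agent.Q221.Conj.Two
import Pool.Agent.Q221.Conj.Monad

set_option autoImplicit false

/-!
# Words over the letters of a two-sided machine
-/

namespace Pool.Agent.Q221.Conj.Two

open Relation

open Pool.Agent.Q221.Conj.Monad (split_unique)

variable {M : Mach}

theorem rule_o {l r : List (L M)} (h : Rule M l r) (ho : L.o ∈ l) : L.o ∈ r := by
  cases h <;> simp at ho ⊢

theorem rule_J {l r : List (L M)} (h : Rule M l r) (ho : L.o ∉ r) : L.J ∉ l ∧ L.J ∉ r := by
  cases h <;> simp at ho ⊢

theorem step_o {u v : List (L M)} (h : Step (R M) u v) (ho : L.o ∈ u) : L.o ∈ v := by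
  obtain ⟨x, y, l, r, hr, rfl, rfl⟩ := h
  have := rule_o (mem_R.1 hr)
  simp only [List.mem_append] at ho ⊢
  tauto

theorem steps_o {u v : List (L M)} (h : Steps (R M) u v) (ho : L.o ∈ u) : L.o ∈ v := by
  induction h with
  | refl => exact ho
  | tail _ h ih => exact step_o h ih

theorem irr_single (a : L M) : Irr (R M) [a] := by
  rintro v ⟨x, y, l, r, hr, he, -⟩
  have h1 := rule_length (mem_R.1 hr)
  have h2 := congrArg List.length he
  simp only [List.length_append, List.length_singleton] at h2
  omega

/-- A rewriting step without the zero letter acts on one side of the letter `J`. -/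
theorem step_J {x y z : List (L M)} (h : Step (R M) (x ++ [.J] ++ y) z) (ho : L.o ∉ z) :
    (∃ x', z = x' ++ [.J] ++ y ∧ Step (R M) x x') ∨
    (∃ y', z = x ++ [.J] ++ y' ∧ Step (R M) y y') := by
  obtain ⟨a, b, l, r, hr, he, rfl⟩ := h
  have hor : L.o ∉ r := by
    simp only [List.mem_append] at ho
    tauto
  obtain ⟨hJl, hJr⟩ := rule_J (mem_R.1 hr) hor
  simp only [List.append_assoc, List.cons_append, List.nil_append] at he
  rcases List.append_eq_append_iff.1 he with ⟨s, hs1, hs2⟩ | ⟨s, hs1, hs2⟩
  · -- `a = x ++ s`, `J :: y = s ++ (l ++ b)`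
    subst hs1
    rcases s with _ | ⟨s0, s⟩
    · exfalso
      rcases l with _ | ⟨l0, l⟩
      · have := (rule_length (mem_R.1 hr)).2.1
        simp at this
      · simp only [List.nil_append, List.cons_append, List.cons.injEq] at hs2
        apply hJl
        rw [← hs2.1]
        simp
    · simp only [List.cons_append, List.cons.injEq] at hs2
      obtain ⟨rfl, rfl⟩ := hs2
      right
      exact ⟨s ++ r ++ b, by simp, s, b, l, r, hr, by simp, rfl⟩
  · -- `x = a ++ s`, `l ++ b = s ++ J :: y`
    subst hs1
    rcases List.append_eq_append_iff.1 hs2 with ⟨t, ht1, ht2⟩ | ⟨t, ht1, ht2⟩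
    · -- `s = l ++ t`, `b = t ++ J :: y`
      subst ht1 ht2
      left
      exact ⟨a ++ r ++ t, by simp, a, t, l, r, hr, by simp, rfl⟩
    · -- `l = s ++ t`, `J :: y = t ++ b`
      rcases t with _ | ⟨t0, t⟩
      · simp only [List.nil_append, List.append_nil] at ht1 ht2
        subst ht1 ht2
        left
        exact ⟨a ++ r, by simp, a, [], l, r, hr, by simp, by simp⟩
      · exfalso
        simp only [List.cons_append, List.cons.injEq] at ht2
        apply hJl
        rw [ht1, ← ht2.1]
        simp

theorem steps_J {x y z : List (L M)} (h : Steps (R M) (x ++ [.J] ++ y) z) (ho : L.o ∉ z) :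
    ∃ x' y', z = x' ++ [.J] ++ y' ∧ Steps (R M) x x' ∧ Steps (R M) y y' := by
  induction h with
  | refl => exact ⟨x, y, rfl, ReflTransGen.refl, ReflTransGen.refl⟩
  | @tail b c _ hbc ih =>
    have hob : L.o ∉ b := fun h => ho (step_o hbc h)
    obtain ⟨x', y', rfl, h1, h2⟩ := ih hob
    rcases step_J hbc ho with ⟨x'', hz, h3⟩ | ⟨y'', hz, h3⟩
    · exact ⟨x'', y', hz, h1.tail h3, h2⟩
    · exact ⟨x', y'', hz, h1, h2.tail h3⟩

theorem step_memJ {u v : List (L M)} (h : Step (R M) u v) (ho : L.o ∉ v) : L.J ∈ u ↔ L.J ∈ v := by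
  obtain ⟨x, y, l, r, hr, rfl, rfl⟩ := h
  have hor : L.o ∉ r := by
    simp only [List.mem_append] at ho
    tauto
  obtain ⟨hJl, hJr⟩ := rule_J (mem_R.1 hr) hor
  simp only [List.mem_append]
  tauto

theorem steps_memJ {u v : List (L M)} (h : Steps (R M) u v) (ho : L.o ∉ v) :
    L.J ∈ u ↔ L.J ∈ v := by
  induction h with
  | refl => rfl
  | @tail b c _ hbc ih =>
    have hob : L.o ∉ b := fun h => ho (step_o hbc h)
    exact (ih hob).trans (step_memJ hbc ho)

theorem irr_J {x y : List (L M)} (hx : Irr (R M) x) (hy : Irr (R M) y) (hox : L.o ∉ x)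
    (hoy : L.o ∉ y) : Irr (R M) (x ++ [.J] ++ y) := by
  intro z hz
  by_cases ho : L.o ∈ z
  · obtain ⟨a, b, l, r, hr, he, rfl⟩ := hz
    have hor : L.o ∉ x ++ [.J] ++ y := by simp [hox, hoy]
    rw [he] at hor
    have hol : L.o ∉ l := by
      simp only [List.mem_append] at hor
      tauto
    -- the rule is the rule for a pair of states
    have hr' := mem_R.1 hr
    cases hr' with
    | zz q p =>
      -- the factor `q p` lies on one side of `J`
      simp only [List.append_assoc, List.cons_append, List.nil_append] at he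
      rcases List.append_eq_append_iff.1 he with ⟨s, hs1, hs2⟩ | ⟨s, hs1, hs2⟩
      · subst hs1
        rcases s with _ | ⟨s0, s⟩
        · simp at hs2
        · simp only [List.cons_append, List.cons.injEq] at hs2
          obtain ⟨rfl, rfl⟩ := hs2
          exact hy _ ⟨s, b, _, _, mem_R.2 (.zz q p), by simp, rfl⟩
      · subst hs1
        rcases s with _ | ⟨s0, _ | ⟨s1, s⟩⟩
        · simp at hs2
        · simp at hs2
        · simp only [List.cons_append, List.cons.injEq] at hs2
          obtain ⟨rfl, rfl, rfl⟩ := hs2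
          exact hx _ ⟨a, s, _, _, mem_R.2 (.zz q p), by simp, rfl⟩
    | ol x => simp at hol
    | or x => simp at hol
    | _ => simp_all
  · rcases step_J hz ho with ⟨x', -, h⟩ | ⟨y', -, h⟩
    · exact hx _ h
    · exact hy _ h

/-- A product `x J y` is zero if and only if a factor is. -/
theorem dead_J {x y : List (L M)} (h : Steps (R M) (x ++ [.J] ++ y) [.o]) :
    Steps (R M) x [.o] ∨ Steps (R M) y [.o] := by
  obtain ⟨x', hx', hx⟩ := exists_irr (R_lengthReducing (M := M)) x
  obtain ⟨y', hy', hy⟩ := exists_irr (R_lengthReducing (M := M)) y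
  by_cases hox : L.o ∈ x'
  · exact Or.inl (hx.trans (dead_of_mem hox))
  by_cases hoy : L.o ∈ y'
  · exact Or.inr (hy.trans (dead_of_mem hoy))
  exfalso
  have h1 : Steps (R M) (x ++ [.J] ++ y) (x' ++ [.J] ++ y') := (hx.right [.J]).append hy
  obtain ⟨z, hz1, hz2⟩ := R_confluent _ _ _ h1 h
  have e1 := (irr_J hx' hy' hox hoy).steps_eq hz1
  have e2 := (irr_single (M := M) .o).steps_eq hz2
  have : x' ++ [.J] ++ y' = [L.o] := e1.symm.trans e2
  have h3 : L.o ∈ x' ++ [.J] ++ y' := by rw [this]; simp
  simp [hox, hoy] at h3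

/-- The word of a configuration of the left machine. -/
def enc (x : List M.I) : List (L M) := x.flatMap fun z => [.inp z, .pad]

theorem enc_append (x y : List M.I) : enc (x ++ y) = enc x ++ enc y := by
  simp [enc]

theorem enc_cons (z : M.I) (y : List M.I) : enc (z :: y) = [.inp z, .pad] ++ enc y := by
  simp [enc]

theorem mem_enc {x : List M.I} {a : L M} (h : a ∈ enc x) : (∃ z, a = .inp z) ∨ a = .pad := by
  simp only [enc, List.mem_flatMap, List.mem_cons, List.not_mem_nil, or_false] at h
  obtain ⟨z, -, rfl | rfl⟩ := h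
  · exact Or.inl ⟨z, rfl⟩
  · exact Or.inr rfl

theorem enc_inj : ∀ {x y : List M.I}, enc x = enc y → x = y
  | [], [], _ => rfl
  | [], b :: y, h => by simp [enc] at h
  | a :: x, [], h => by simp [enc] at h
  | a :: x, b :: y, h => by
    simp only [enc_cons, List.cons_append, List.nil_append, List.cons.injEq, L.inp.injEq,
      true_and] at h
    rw [h.1, enc_inj h.2]

/-- Configurations of the left-reading machine that reach the state `pf` with empty stack and no
input. The stack has its top on the left. -/
inductive LOk (M : Mach) (pf : M.Q') : List M.I → M.Q' → List M.T' → Prop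
  | fin : LOk M pf [] pf []
  | read (x : List M.I) (z : M.I) (p p1 : M.Q') (t : Option M.T') (s : List M.T')
      (h : M.rd' p z t p1) (h' : LOk M pf x p1 (t.toList ++ s)) : LOk M pf (x ++ [z]) p s
  | pop (x : List M.I) (p p1 : M.Q') (t : M.T') (s : List M.T')
      (h : M.pp' t p p1) (h' : LOk M pf x p1 s) : LOk M pf x p (t :: s)

/-- Configurations of the right-reading machine that reach the state `qf` with empty stack and no
input. The stack has its top on the left. -/
inductive ROk (M : Mach) (qf : M.Q) : List M.T → M.Q → List M.I → Prop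
  | fin : ROk M qf [] qf []
  | read (x : List M.I) (z : M.I) (q q1 : M.Q) (t : Option M.T) (s : List M.T)
      (h : M.rd q z t q1) (h' : ROk M qf (t.toList ++ s) q1 x) : ROk M qf s q (z :: x)
  | pop (x : List M.I) (q q1 : M.Q) (t : M.T) (s : List M.T)
      (h : M.pp t q q1) (h' : ROk M qf s q1 x) : ROk M qf (t :: s) q x

/-- The word of a configuration of the left-reading machine. -/
def wL (x : List M.I) (p : M.Q') (s : List M.T') : List (L M) := enc x ++ [.ls p] ++ s.map .sl

/-- The word of a configuration of the right-reading machine. -/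
def wR (s : List M.T) (q : M.Q) (x : List M.I) : List (L M) :=
  s.reverse.map .sr ++ [.rs q] ++ enc x

theorem back_L {pf : M.Q'} {z z' : List (L M)} (h : Step (R M) z z')
    (hz : ∃ x p s, z' = wL x p s ∧ LOk M pf x p s) : ∃ x p s, z = wL x p s ∧ LOk M pf x p s := by
  obtain ⟨x, p, s, rfl, hok⟩ := hz
  obtain ⟨a, b, l, r, hr, rfl, he⟩ := h
  have hmem : ∀ y, y ∈ r → y ∈ wL x p s := by
    intro y hy
    rw [he]
    simp [hy]
  have hr' := mem_R.1 hr
  have nrs : ∀ q, L.rs q ∉ wL x p s := by
    intro q hq
    simp only [wL, List.mem_append, List.mem_singleton, List.mem_map, reduceCtorEq, or_false,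
      and_false, exists_false] at hq
    rcases mem_enc hq with ⟨z, h⟩ | h <;> cases h
  have no : L.o ∉ wL x p s := by
    intro hq
    simp only [wL, List.mem_append, List.mem_singleton, List.mem_map, reduceCtorEq, or_false,
      and_false, exists_false] at hq
    rcases mem_enc hq with ⟨z, h⟩ | h <;> cases h
  have nls : ∀ q, L.ls q ∉ enc x := by
    intro q hq
    rcases mem_enc hq with ⟨z, h⟩ | h <;> cases h
  cases hr' with
  | r1 q z t q1 h => exact absurd (hmem (.rs q1) (by simp)) (nrs _)
  | r2 t q q1 h => exact absurd (hmem (.rs q1) (by simp)) (nrs _)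
  | zz => exact absurd (hmem .o (by simp)) no
  | ol => exact absurd (hmem .o (by simp)) no
  | or => exact absurd (hmem .o (by simp)) no
  | l1 p0 z t p1 h =>
    have he' : a ++ [.ls p1] ++ (t.toList.map .sl ++ b) = enc x ++ [.ls p] ++ s.map .sl := by
      simpa [wL] using he.symm
    obtain ⟨e1, rfl, e3⟩ := split_unique he' (nls _) (by simp)
    cases e1
    obtain ⟨s1, s2, hs, hs1, hs2⟩ := List.map_eq_append_iff.1 e3.symm
    have : s1 = t.toList := by
      refine List.map_injective_iff.2 ?_ hs1
      intro u v huv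
      cases huv
      rfl
    subst this hs
    refine ⟨x ++ [z], p0, s2, ?_, LOk.read x z p0 p t s2 h hok⟩
    rw [wL, enc_append, ← hs2]
    simp [enc]
  | l2 t p0 p1 h =>
    have he' : a ++ [.ls p1] ++ b = enc x ++ [.ls p] ++ s.map .sl := by
      simpa [wL] using he.symm
    obtain ⟨e1, rfl, e3⟩ := split_unique he' (nls _) (by simp)
    cases e1
    subst e3
    refine ⟨x, p0, t :: s, ?_, LOk.pop x p0 p t s h hok⟩
    simp [wL]

theorem back_R {qf : M.Q} {z z' : List (L M)} (h : Step (R M) z z')
    (hz : ∃ s q x, z' = wR s q x ∧ ROk M qf s q x) : ∃ s q x, z = wR s q x ∧ ROk M qf s q x := by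
  obtain ⟨s, q, x, rfl, hok⟩ := hz
  obtain ⟨a, b, l, r, hr, rfl, he⟩ := h
  have hmem : ∀ y, y ∈ r → y ∈ wR s q x := by
    intro y hy
    rw [he]
    simp [hy]
  have hr' := mem_R.1 hr
  have nls : ∀ p, L.ls p ∉ wR s q x := by
    intro p hq
    simp only [wR, List.mem_append, List.mem_singleton, List.mem_map, reduceCtorEq, false_or,
      and_false, exists_false] at hq
    rcases mem_enc hq with ⟨z, h⟩ | h <;> cases h
  have no : L.o ∉ wR s q x := by
    intro hq
    simp only [wR, List.mem_append, List.mem_singleton, List.mem_map, reduceCtorEq, false_or,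
      and_false, exists_false] at hq
    rcases mem_enc hq with ⟨z, h⟩ | h <;> cases h
  have nrs : ∀ q, L.rs q ∉ enc x := by
    intro q hq
    rcases mem_enc hq with ⟨z, h⟩ | h <;> cases h
  cases hr' with
  | l1 p0 z t p1 h => exact absurd (hmem (.ls p1) (by simp)) (nls _)
  | l2 t p0 p1 h => exact absurd (hmem (.ls p1) (by simp)) (nls _)
  | zz => exact absurd (hmem .o (by simp)) no
  | ol => exact absurd (hmem .o (by simp)) no
  | or => exact absurd (hmem .o (by simp)) no
  | r1 q0 z t q1 h =>
    have he' : (a ++ t.toList.map .sr) ++ [.rs q1] ++ b =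
        s.reverse.map .sr ++ [.rs q] ++ enc x := by
      simpa [wR] using he.symm
    obtain ⟨e1, e2, e3⟩ := split_unique he' (by simp) (nrs _)
    cases e1
    subst e3
    obtain ⟨s1, s2, hs, hs1, hs2⟩ := List.map_eq_append_iff.1 e2.symm
    have : s2 = t.toList := by
      refine List.map_injective_iff.2 ?_ hs2
      intro u v huv
      cases huv
      rfl
    subst this
    have hs' : s = t.toList ++ s1.reverse := by
      have := congrArg List.reverse hs
      rw [List.reverse_reverse, List.reverse_append] at this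
      rw [this]
      rcases t with _ | t <;> simp
    subst hs'
    refine ⟨s1.reverse, q0, z :: x, ?_, ROk.read x z q0 q t s1.reverse h hok⟩
    rw [wR, enc_cons, List.reverse_reverse, hs1]
    simp
  | r2 t q0 q1 h =>
    have he' : a ++ [.rs q1] ++ b = s.reverse.map .sr ++ [.rs q] ++ enc x := by
      simpa [wR] using he.symm
    obtain ⟨e1, e2, e3⟩ := split_unique he' (by simp) (nrs _)
    cases e1
    subst e3 e2
    refine ⟨t :: s, q0, x, ?_, ROk.pop x q0 q t s h hok⟩
    simp [wR]

theorem steps_back_L {pf : M.Q'} {z : List (L M)} (h : Steps (R M) z [.ls pf]) :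
    ∃ x p s, z = wL x p s ∧ LOk M pf x p s := by
  induction h using ReflTransGen.head_induction_on with
  | refl => exact ⟨[], pf, [], by simp [wL, enc], LOk.fin⟩
  | head h _ ih => exact back_L h ih

theorem steps_back_R {qf : M.Q} {z : List (L M)} (h : Steps (R M) z [.rs qf]) :
    ∃ s q x, z = wR s q x ∧ ROk M qf s q x := by
  induction h using ReflTransGen.head_induction_on with
  | refl => exact ⟨[], qf, [], by simp [wR, enc], ROk.fin⟩
  | head h _ ih => exact back_R h ih

theorem wR_inj {s s' : List M.T} {q q' : M.Q} {x x' : List M.I} (h : wR s q x = wR s' q' x') :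
    s = s' ∧ q = q' ∧ x = x' := by
  have nrs : ∀ q, L.rs q ∉ enc x' := by
    intro q hq
    rcases mem_enc hq with ⟨z, h⟩ | h <;> cases h
  obtain ⟨e1, e2, e3⟩ := split_unique h (by simp) (nrs _)
  cases e1
  refine ⟨?_, rfl, enc_inj e3⟩
  apply List.reverse_injective
  refine List.map_injective_iff.2 ?_ e2
  intro u v huv
  cases huv
  rfl

end Pool.Agent.Q221.Conj.Two
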