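import Mathlib
import Pool.Agent.Q221.Conj.TwoJ

set_option autoImplicit false

/-!
# Conjugacy in the monoid of a two-sided machine
-/

namespace Pool.Agent.Q221.Conj.Two

open Relation

open Pool.Agent.Q221.Conj.Monad (split_unique)

variable {M : Mach}

theorem split_first {T : Type} {t : T} : ∀ {x x' y y' : List T}, x ++ [t] ++ y = x' ++ [t] ++ y' →
    t ∉ x → t ∉ x' → x = x' ∧ y = y'
  | [], [], _, _, h, _, _ => by simpa using h
  | [], b :: x', _, _, h, _, h2 => by
    simp only [List.nil_append, List.cons_append, List.cons.injEq] at h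
    exact absurd (by simp [h.1]) h2
  | a :: x, [], _, _, h, h1, _ => by
    simp only [List.nil_append, List.cons_append, List.cons.injEq] at h
    exact absurd (by simp [← h.1]) h1
  | a :: x, b :: x', y, y', h, h1, h2 => by
    simp only [List.cons_append, List.cons.injEq] at h
    obtain ⟨e1, e2⟩ := split_first (x := x) (x' := x') h.2
      (fun h => h1 (List.mem_cons_of_mem _ h)) (fun h => h2 (List.mem_cons_of_mem _ h))
    exact ⟨by rw [h.1, e1], e2⟩

theorem zero_elt : IsZeroElt (cl (R M) [.o]) := by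
  intro m
  obtain ⟨u, rfl⟩ := cl_surj m
  rw [← cl_append, ← cl_append]
  exact ⟨cl_eq_of_steps (dead_right u), cl_eq_of_steps (dead_left u)⟩

theorem zero_unique {z : Mon (R M)} (h : IsZeroElt z) : z = cl (R M) [.o] := by
  rw [← (h (cl (R M) [.o])).1]
  exact (zero_elt z).2

theorem cl_zero_iff {x : List (L M)} : cl (R M) x = cl (R M) [.o] ↔ Steps (R M) x [.o] :=
  cl_eq_iff R_confluent (irr_single _)

theorem irr_wR {s : List M.T} {q : M.Q} (h : ∀ t q1, ¬ M.pp t q q1) : Irr (R M) (wR s q []) := by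
  rintro v ⟨a, b, l, r, hr, he, -⟩
  have hmem : ∀ y, y ∈ l → y ∈ wR s q [] := by
    intro y hy
    rw [he]
    simp [hy]
  have hr' := mem_R.1 hr
  cases hr' with
  | r1 q z t q1 h => have := hmem (.inp z) (by simp); simp [wR, enc] at this
  | r2 t q0 q1 h' =>
    have := hmem (.rs q0) (by simp)
    simp only [wR, enc, List.flatMap_nil, List.append_nil, List.mem_append, List.mem_map,
      List.mem_reverse, reduceCtorEq, and_false, exists_false, List.mem_singleton, L.rs.injEq,
      false_or] at this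
    subst this
    exact h _ _ h'
  | l1 p0 z t p1 h => have := hmem (.inp z) (by simp); simp [wR, enc] at this
  | l2 t p0 p1 h => have := hmem (.ls p0) (by simp); simp [wR, enc] at this
  | zz q p => have := hmem (.ls p) (by simp); simp [wR, enc] at this
  | ol x => have := hmem .o (by simp); simp [wR, enc] at this
  | or x => have := hmem .o (by simp); simp [wR, enc] at this

theorem o_not_mem_wR {s : List M.T} {q : M.Q} {x : List M.I} : L.o ∉ wR s q x := by
  intro hq
  simp only [wR, List.mem_append, List.mem_singleton, List.mem_map, reduceCtorEq, false_or,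
    and_false, exists_false] at hq
  rcases mem_enc hq with ⟨z, h⟩ | h <;> cases h

theorem J_not_mem_wR {s : List M.T} {q : M.Q} {x : List M.I} : L.J ∉ wR s q x := by
  intro hq
  simp only [wR, List.mem_append, List.mem_singleton, List.mem_map, reduceCtorEq, false_or,
    and_false, exists_false] at hq
  rcases mem_enc hq with ⟨z, h⟩ | h <;> cases h

theorem run_rd {q q1 : M.Q} {z : M.I} {t : Option M.T} (h : M.rd q z t q1) (s : List M.T)
    (x : List M.I) : Steps (R M) (wR s q (z :: x)) (wR (t.toList ++ s) q1 x) := by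
  have h1 := single (Rule.r1 q z t q1 h) (s.reverse.map .sr) (enc x)
  refine cast ?_ h1
  congr 1
  · simp [wR, enc_cons]
  · rcases t with _ | t <;> simp [wR]

theorem run_pp {q q1 : M.Q} {t : M.T} (h : M.pp t q q1) (s : List M.T)
    (x : List M.I) : Steps (R M) (wR (t :: s) q x) (wR s q1 x) := by
  have h1 := single (Rule.r2 t q q1 h) (s.reverse.map .sr) (enc x)
  refine cast ?_ h1
  congr 1
  simp [wR]

theorem run_rd' {p p1 : M.Q'} {z : M.I} {t : Option M.T'} (h : M.rd' p z t p1) (s : List M.T')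
    (x : List M.I) : Steps (R M) (wL (x ++ [z]) p s) (wL x p1 (t.toList ++ s)) := by
  have h1 := single (Rule.l1 p z t p1 h) (enc x) (s.map .sl)
  refine cast ?_ h1
  congr 1
  · simp [wL, enc]
  · simp [wL]

theorem run_pp' {p p1 : M.Q'} {t : M.T'} (h : M.pp' t p p1) (s : List M.T')
    (x : List M.I) : Steps (R M) (wL x p (t :: s)) (wL x p1 s) := by
  have h1 := single (Rule.l2 t p p1 h) (enc x) (s.map .sl)
  refine cast ?_ h1
  congr 1
  simp [wL]

variable (M) in
/-- The first word. -/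
def wa (pf : M.Q') (s0 : List M.T) (q0 : M.Q) : List (L M) := [.ls pf, .J] ++ wR s0 q0 []

variable (M) in
/-- The second word. -/
def wb (p0 : M.Q') (qf : M.Q) : List (L M) := [.ls p0, .J, .rs qf]

theorem wa_ne (pf : M.Q') (s0 : List M.T) (q0 : M.Q) (h : ∀ t q1, ¬ M.pp t q0 q1) :
    cl (R M) (wa M pf s0 q0) ≠ cl (R M) [.o] := by
  intro he
  have h1 := cl_zero_iff.1 he
  have hirr : Irr (R M) (wa M pf s0 q0) :=
    irr_J (x := [.ls pf]) (irr_single _) (irr_wR h) (by simp) o_not_mem_wR
  have h2 := hirr.steps_eq h1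
  simp [wa] at h2

theorem wb_ne (p0 : M.Q') (qf : M.Q) : cl (R M) (wb M p0 qf) ≠ cl (R M) [.o] := by
  intro he
  have h1 := cl_zero_iff.1 he
  have hirr : Irr (R M) (wb M p0 qf) :=
    irr_J (x := [.ls p0]) (y := [.rs qf]) (irr_single _) (irr_single _) (by simp) (by simp)
  have h2 := hirr.steps_eq h1
  simp [wb] at h2

theorem conj_imp {pf p0 : M.Q'} {qf q0 : M.Q} {s0 : List M.T} (hq : ∀ t q1, ¬ M.pp t q0 q1)
    (h : CConj (cl (R M) (wa M pf s0 q0)) (cl (R M) (wb M p0 qf))) :
    ∃ x, LOk M pf x p0 [] ∧ ROk M qf s0 q0 x := by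
  obtain ⟨g, hg, -, -, h1, -⟩ := h
  obtain ⟨g, rfl⟩ := cl_surj g
  have hne : ¬ Steps (R M) (wa M pf s0 q0 ++ g) [.o] := by
    intro hd
    refine wa_ne pf s0 q0 hq ?_
    have := (hg _ zero_elt).2 (wa_ne pf s0 q0 hq) 1
    rw [one_mul, ← cl_append] at this
    exact this (cl_zero_iff.2 hd)
  rw [← cl_append, ← cl_append] at h1
  obtain ⟨z, hz1, hz2⟩ := join_of_eq R_confluent h1
  have hoz : L.o ∉ z := fun ho => hne (hz1.trans (dead_of_mem ho))
  have e1 : wa M pf s0 q0 ++ g = [.ls pf] ++ [.J] ++ (wR s0 q0 [] ++ g) := by simp [wa]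
  have e2 : g ++ wb M p0 qf = (g ++ [.ls p0]) ++ [.J] ++ [.rs qf] := by simp [wb]
  rw [e1] at hz1
  rw [e2] at hz2
  obtain ⟨x', y', rfl, hx', hy'⟩ := steps_J hz1 hoz
  obtain ⟨x'', y'', he, hx'', hy''⟩ := steps_J hz2 hoz
  obtain rfl := (irr_single _).steps_eq hx'
  obtain rfl := (irr_single _).steps_eq hy''
  have hox'' : L.o ∉ x'' := by
    intro ho
    apply hoz
    rw [he]
    simp [ho]
  have hoy' : L.o ∉ y' := by
    intro ho
    apply hoz
    simp [ho]
  have hJ : L.J ∉ g := by
    intro hJ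
    obtain ⟨u, v, rfl, hu⟩ := List.eq_append_cons_of_mem hJ
    have e3 : u ++ L.J :: v ++ [.ls p0] = u ++ [.J] ++ (v ++ [.ls p0]) := by simp
    rw [e3] at hx''
    obtain ⟨u', v', rfl, hu', -⟩ := steps_J hx'' hox''
    have hou' : L.o ∉ u' := fun ho => hox'' (by simp [ho])
    have hJu' : L.J ∉ u' := fun h => hu ((steps_memJ hu' hou').2 h)
    have he' : [L.ls pf] ++ [.J] ++ y' = u' ++ [.J] ++ (v' ++ [.J] ++ [.rs qf]) := by
      simpa using he
    obtain ⟨rfl, -⟩ := split_first he' (by simp) hJu'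
    apply hne
    have h3 : Steps (R M) ([.ls pf, .J] ++ (s0.reverse.map .sr ++ [.rs q0]) ++ u ++ (.J :: v))
        ([.ls pf, .J] ++ (s0.reverse.map .sr ++ [.rs q0]) ++ [.ls pf] ++ (.J :: v)) :=
      (hu'.left _).right _
    have h4 := dead_qp ([.ls pf, .J] ++ s0.reverse.map .sr) (.J :: v) q0 pf
    refine Relation.ReflTransGen.trans ?_ h4
    refine cast ?_ h3
    congr 1
    · simp [wa, wR, enc]
    · simp
  have hJx : L.J ∉ x'' := by
    intro h
    have := (steps_memJ hx'' hox'').2 h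
    simp [hJ] at this
  obtain ⟨rfl, rfl⟩ := split_first he (by simp) hJx
  -- the left machine
  obtain ⟨x, p, s, hL, hLok⟩ := steps_back_L hx''
  have hL' : g ++ [.ls p0] ++ [] = enc x ++ [.ls p] ++ s.map .sl := by
    rw [List.append_nil]
    exact hL
  have nls : ∀ q, L.ls q ∉ enc x := by
    intro q hq
    rcases mem_enc hq with ⟨z, h⟩ | h <;> cases h
  obtain ⟨f1, f2, f3⟩ := split_unique hL' (nls _) (by simp)
  cases f1
  have f3' : s = [] := List.map_eq_nil_iff.1 f3.symm
  subst f3' f2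
  refine ⟨x, hLok, ?_⟩
  obtain ⟨s, q, x1, hR, hRok⟩ := steps_back_R hy'
  have hR' : wR s0 q0 x = wR s q x1 := by
    rw [← hR]
    simp [wR, enc]
  obtain ⟨rfl, rfl, rfl⟩ := wR_inj hR'
  exact hRok

theorem LOk.steps {pf : M.Q'} {x : List M.I} {p : M.Q'} {s : List M.T'} (h : LOk M pf x p s) :
    Steps (R M) (wL x p s) [.ls pf] := by
  induction h with
  | fin => simpa [wL, enc] using ReflTransGen.refl
  | read x z p p1 t s h _ ih => exact (run_rd' h s x).trans ih
  | pop x p p1 t s h _ ih => exact (run_pp' h s x).trans ih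

theorem ROk.steps {qf : M.Q} {x : List M.I} {q : M.Q} {s : List M.T} (h : ROk M qf s q x) :
    Steps (R M) (wR s q x) [.rs qf] := by
  induction h with
  | fin => simpa [wR, enc] using ReflTransGen.refl
  | read x z p p1 t s h _ ih => exact (run_rd h s x).trans ih
  | pop x p p1 t s h _ ih => exact (run_pp h s x).trans ih

theorem LOk.ind {pf : M.Q'} {motive : List M.I → M.Q' → List M.T' → Prop}
    (hfin : motive [] pf [])
    (hread : ∀ x z p p1 t s, M.rd' p z t p1 → motive x p1 (t.toList ++ s) → motive (x ++ [z]) p s)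
    (hpop : ∀ x p p1 t s, M.pp' t p p1 → motive x p1 s → motive x p (t :: s)) :
    ∀ x p s, LOk M pf x p s → motive x p s := by
  intro x p s h
  induction h with
  | fin => exact hfin
  | read x z p p1 t s h _ ih => exact hread x z p p1 t s h ih
  | pop x p p1 t s h _ ih => exact hpop x p p1 t s h ih

theorem ROk.inv {qf : M.Q} {x : List M.I} {q : M.Q} {s : List M.T} (h : ROk M qf s q x) :
    (s = [] ∧ q = qf ∧ x = []) ∨
    (∃ z x' t q1, x = z :: x' ∧ M.rd q z t q1 ∧ ROk M qf (t.toList ++ s) q1 x') ∨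
    (∃ t s' q1, s = t :: s' ∧ M.pp t q q1 ∧ ROk M qf s' q1 x) := by
  cases h with
  | fin => exact Or.inl ⟨rfl, rfl, rfl⟩
  | read x z q q1 t s h h' => exact Or.inr (Or.inl ⟨_, _, _, _, rfl, h, h'⟩)
  | pop x q q1 t s h h' => exact Or.inr (Or.inr ⟨_, _, _, rfl, h, h'⟩)

theorem imp_conj {pf p0 : M.Q'} {qf q0 : M.Q} {s0 : List M.T} (hq : ∀ t q1, ¬ M.pp t q0 q1)
    {x : List M.I} (hx1 : LOk M pf x p0 []) (hx2 : ROk M qf s0 q0 x) {y : List M.I}
    (hy1 : Steps (R M) (wL y pf []) (wL [] p0 []))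
    (hy2 : Steps (R M) (wR [] qf y) (wR s0 q0 [])) :
    CConj (cl (R M) (wa M pf s0 q0)) (cl (R M) (wb M p0 qf)) := by
  have ea : Steps (R M) (wa M pf s0 q0 ++ enc x) [.ls pf, .J, .rs qf] := by
    have := hx2.steps.left [.ls pf, .J]
    refine cast ?_ this
    congr 1
    simp [wa, wR, enc]
  have eb : Steps (R M) (enc x ++ wb M p0 qf) [.ls pf, .J, .rs qf] := by
    have := hx1.steps.right [.J, .rs qf]
    refine cast ?_ this
    congr 1
    simp [wb, wL]
  have ec : Steps (R M) (wb M p0 qf ++ enc y) (.ls p0 :: .J :: wR s0 q0 []) := by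
    have := hy2.left [.ls p0, .J]
    refine cast ?_ this
    congr 1
  have ed : Steps (R M) (enc y ++ wa M pf s0 q0) (.ls p0 :: .J :: wR s0 q0 []) := by
    have := hy1.right (.J :: wR s0 q0 [])
    refine cast ?_ this
    congr 1
    simp [wa, wL]
  refine ⟨cl (R M) (enc x), ?_, cl (R M) (enc y), ?_, ?_, ?_⟩
  · intro z hz
    obtain rfl := zero_unique hz
    refine ⟨fun h => absurd h (wa_ne pf s0 q0 hq), fun _ m hm => ?_⟩
    obtain ⟨m, rfl⟩ := cl_surj m
    rw [mul_assoc, ← cl_append, cl_eq_of_steps ea, ← cl_append, cl_zero_iff] at hm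
    have hm' : Steps (R M) ((m ++ [.ls pf]) ++ [.J] ++ [.rs qf]) [.o] := by simpa using hm
    rcases dead_J hm' with h | h
    · rw [← cl_append, cl_zero_iff]
      have := (h.right (.J :: wR s0 q0 [])).trans (dead_right _)
      refine cast ?_ this
      congr 1
      simp [wa]
    · have := (irr_single (M := M) (.rs qf)).steps_eq h
      simp at this
  · intro z hz
    obtain rfl := zero_unique hz
    refine ⟨fun h => absurd h (wb_ne p0 qf), fun _ m hm => ?_⟩
    obtain ⟨m, rfl⟩ := cl_surj m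
    rw [mul_assoc, ← cl_append, cl_eq_of_steps ec, ← cl_append, cl_zero_iff] at hm
    have hm' : Steps (R M) ((m ++ [.ls p0]) ++ [.J] ++ wR s0 q0 []) [.o] := by simpa using hm
    rcases dead_J hm' with h | h
    · rw [← cl_append, cl_zero_iff]
      have := (h.right [.J, .rs qf]).trans (dead_right _)
      refine cast ?_ this
      congr 1
      simp [wb]
    · have h2 := (irr_wR (s := s0) hq).steps_eq h
      exfalso
      apply o_not_mem_wR (M := M) (s := s0) (q := q0) (x := [])
      rw [← h2]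
      simp
  · rw [← cl_append, ← cl_append, cl_eq_of_steps ea, cl_eq_of_steps eb]
  · rw [← cl_append, ← cl_append, cl_eq_of_steps ec, cl_eq_of_steps ed]

end Pool.Agent.Q221.Conj.Two
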