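import Mathlib
import Pool.Agent.Q221.Conj.TwoC
import Pool.Agent.Q221.Conj.Base
import Pool.Agent.Q221.Conj.Trans

set_option autoImplicit false
set_option linter.constructorNameAsVariable false

/-!
# A finite length-reducing confluent system with undecidable `c`-conjugacy problem
-/

namespace Pool.Agent.Q221.Conj.CMach

open Relation Two

/-- Input letters. -/
inductive In (S : Type)
  | beg | fin | num
  | d (i : S × S)
  | c (a : S)
  | r | r'

/-- States of the right-reading machine. -/
inductive QR (S : Type) (B : ℕ)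
  | q0 | qp | be | qf | q1
  | k (r : {r : List S // r.length ≤ B})

/-- Stack letters of the right-reading machine. -/
inductive TR (S : Type)
  | bot
  | D (i : S × S)
  | E (a : S)

/-- States of the left-reading machine. -/
inductive QL (S : Type) (B : ℕ)
  | p0 | pp | pk | le | pf | p1
  | la (r : {r : List S // r.length ≤ B})

/-- Stack letters of the left-reading machine. -/
inductive TL (S : Type)
  | bot
  | C (a : S)

variable {S : Type} {B : ℕ}

section Finite

variable [Finite S]

instance : Finite {r : List S // r.length ≤ B} := List.finite_length_le S B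

instance : Finite (In S) := by
  let f : In S → Fin 5 ⊕ ((S × S) ⊕ S) := fun s => match s with
    | .beg => .inl 0
    | .fin => .inl 1
    | .num => .inl 2
    | .r => .inl 3
    | .r' => .inl 4
    | .d i => .inr (.inl i)
    | .c a => .inr (.inr a)
  apply Finite.of_injective f
  intro x y h
  cases x <;> cases y <;> simp_all [f]

instance : Finite (QR S B) := by
  let f : QR S B → Fin 5 ⊕ {r : List S // r.length ≤ B} := fun s => match s with
    | .q0 => .inl 0
    | .qp => .inl 1
    | .be => .inl 2
    | .qf => .inl 3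
    | .q1 => .inl 4
    | .k r => .inr r
  apply Finite.of_injective f
  intro x y h
  cases x <;> cases y <;> simp_all [f]

instance : Finite (QL S B) := by
  let f : QL S B → Fin 6 ⊕ {r : List S // r.length ≤ B} := fun s => match s with
    | .p0 => .inl 0
    | .pp => .inl 1
    | .pk => .inl 2
    | .le => .inl 3
    | .pf => .inl 4
    | .p1 => .inl 5
    | .la r => .inr r
  apply Finite.of_injective f
  intro x y h
  cases x <;> cases y <;> simp_all [f]

instance : Finite (TR S) := by
  let f : TR S → Unit ⊕ ((S × S) ⊕ S) := fun s => match s with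
    | .bot => .inl ()
    | .D i => .inr (.inl i)
    | .E a => .inr (.inr a)
  apply Finite.of_injective f
  intro x y h
  cases x <;> cases y <;> simp_all [f]

instance : Finite (TL S) := by
  let f : TL S → Unit ⊕ S := fun s => match s with
    | .bot => .inl ()
    | .C a => .inr a
  apply Finite.of_injective f
  intro x y h
  cases x <;> cases y <;> simp_all [f]

theorem finite_L (M : Mach) [Finite M.I] [Finite M.Q] [Finite M.T] [Finite M.Q'] [Finite M.T'] :
    Finite (L M) := by
  let f : L M → (M.I ⊕ M.Q) ⊕ (M.Q' ⊕ M.T) ⊕ (M.T' ⊕ Fin 3) := fun s => match s with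
    | .inp z => .inl (.inl z)
    | .rs z => .inl (.inr z)
    | .ls z => .inr (.inl (.inl z))
    | .sr z => .inr (.inl (.inr z))
    | .sl z => .inr (.inr (.inl z))
    | .pad => .inr (.inr (.inr 0))
    | .J => .inr (.inr (.inr 1))
    | .o => .inr (.inr (.inr 2))
  apply Finite.of_injective f
  intro x y h
  cases x <;> cases y <;> simp_all [f]

end Finite

variable (P : S → S → List S) (K : S)

/-- Reading steps of the right-reading machine. -/
inductive Rd : QR S B → In S → Option (TR S) → QR S B → Prop
  | beg : Rd .q0 .beg none .qp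
  | d (i : S × S) : Rd .qp (.d i) (some (.D i)) .qp
  | num (h : ([] : List S).length ≤ B) : Rd .qp .num none (.k ⟨[], h⟩)
  | c (a : S) (r : List S) (h : (a :: r).length ≤ B) (h' : r.length ≤ B) :
      Rd (.k ⟨a :: r, h⟩) (.c a) none (.k ⟨r, h'⟩)
  | fin : Rd .be .fin none .qf
  | r : Rd .qf .r (some .bot) .q1
  | e (a : S) : Rd .q1 (.c a) (some (.E a)) .q1
  | r' : Rd .q1 .r' none .q0

/-- Popping steps of the right-reading machine. -/
inductive Pp : TR S → QR S B → QR S B → Prop
  | D (i : S × S) (h : ([] : List S).length ≤ B) (h' : (P i.1 i.2).reverse.length ≤ B) :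
      Pp (.D i) (.k ⟨[], h⟩) (.k ⟨(P i.1 i.2).reverse, h'⟩)
  | E (a : S) (h : ([] : List S).length ≤ B) (h' : [a].length ≤ B) :
      Pp (.E a) (.k ⟨[], h⟩) (.k ⟨[a], h'⟩)
  | bot (h : ([] : List S).length ≤ B) : Pp .bot (.k ⟨[], h⟩) .be

/-- Reading steps of the left-reading machine. -/
inductive Rd' : QL S B → In S → Option (TL S) → QL S B → Prop
  | fin : Rd' .p0 .fin (some .bot) .pp
  | c (a : S) : Rd' .pp (.c a) (some (.C a)) .pp
  | num : Rd' .pp .num none .pk
  | d (i : S × S) (h : ([] : List S).length ≤ B) (h' : [i.2, i.1].length ≤ B) :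
      Rd' (.la ⟨[], h⟩) (.d i) none (.la ⟨[i.2, i.1], h'⟩)
  | beg (h : ([] : List S).length ≤ B) : Rd' (.la ⟨[], h⟩) .beg none .le
  | r' : Rd' .pf .r' none .p1
  | e (a : S) : Rd' .p1 (.c a) none .p1
  | r : Rd' .p1 .r none .p0

/-- Popping steps of the left-reading machine. -/
inductive Pp' : TL S → QL S B → QL S B → Prop
  | K (h : ([] : List S).length ≤ B) : Pp' (.C K) .pk (.la ⟨[], h⟩)
  | C (a : S) (r : List S) (h : (a :: r).length ≤ B) (h' : r.length ≤ B) :
      Pp' (.C a) (.la ⟨a :: r, h⟩) (.la ⟨r, h'⟩)
  | bot : Pp' .bot .le .pf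

/-- The two-sided machine. -/
def mach (B : ℕ) : Mach where
  I := In S
  Q := QR S B
  T := TR S
  Q' := QL S B
  T' := TL S
  rd := Rd
  pp := Pp P
  rd' := Rd'
  pp' := Pp' K
  rd_det := by
    intro q z t q1 t' q1' h h'
    cases h <;> cases h' <;> exact ⟨rfl, rfl⟩
  pp_det := by
    intro t q q1 q1' h h'
    cases h <;> cases h' <;> rfl
  rd_det' := by
    intro q z t q1 t' q1' h h'
    cases h <;> cases h' <;> exact ⟨rfl, rfl⟩
  pp_det' := by
    intro t q q1 q1' h h'
    cases h <;> cases h' <;> rfl
  excl := by
    intro q z t q1 t' q1' h h'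
    cases h <;> cases h'
  excl' := by
    intro q z t q1 t' q1' h h'
    cases h <;> cases h'

/-- The input word that encodes a candidate solution. -/
def blk (seq : List (S × S)) (u : List S) : List (In S) :=
  .beg :: (seq.map .d ++ .num :: (u.map .c ++ [.fin]))

variable {P K}

section Left

abbrev LO (P : S → S → List S) (K : S) (x : List (In S)) (p : QL S B) (s : List (TL S)) : Prop :=
  LOk (mach P K B) (.pf : QL S B) x p s

abbrev RO (P : S → S → List S) (K : S) (s : List (TR S)) (q : QR S B) (x : List (In S)) : Prop :=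
  ROk (mach P K B) (.qf : QR S B) s q x

/-- The invariant for the left-reading machine. -/
inductive Inv (K : S) : List (In S) → QL S B → List (TL S) → Prop
  | blk (seq : List (S × S)) (x' : List (In S)) (p : QL S B) (s : List (TL S)) :
      Inv K (blk seq (K :: (Hm seq).reverse) ++ x') p s
  | pf : Inv K [] .pf []
  | le : Inv K [] .le [.bot]
  | la (r : {r : List S // r.length ≤ B}) (seq : List (S × S)) :
      Inv K (.beg :: seq.map .d) (.la r) ((r.1 ++ (Hm seq).reverse).map .C ++ [.bot])
  | pk (seq : List (S × S)) :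
      Inv K (.beg :: seq.map .d) .pk ((K :: (Hm seq).reverse).map .C ++ [.bot])
  | pp (seq : List (S × S)) (u v : List S) (h : u ++ v = K :: (Hm seq).reverse) :
      Inv K (.beg :: (seq.map .d ++ .num :: u.map .c)) .pp (v.map .C ++ [.bot])

theorem LO.ind {motive : List (In S) → QL S B → List (TL S) → Prop}
    (hfin : motive [] .pf [])
    (hread : ∀ (x : List (In S)) (z : In S) (p p1 : QL S B) (t : Option (TL S)) (s : List (TL S)),
      Rd' p z t p1 → motive x p1 (t.toList ++ s) → motive (x ++ [z]) p s)
    (hpop : ∀ (x : List (In S)) (p p1 : QL S B) (t : TL S) (s : List (TL S)),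
      Pp' K t p p1 → motive x p1 s → motive x p (t :: s)) :
    ∀ (x : List (In S)) (p : QL S B) (s : List (TL S)), LO P K x p s → motive x p s :=
  LOk.ind (M := mach P K B) (pf := (QL.pf : QL S B)) hfin hread hpop

theorem Inv.of_LO {x : List (In S)} {p : QL S B} {s : List (TL S)} (h : LO P K x p s) :
    Inv K x p s := by
  refine LO.ind (motive := fun x p s => Inv (B := B) K x p s) Inv.pf ?_ ?_ x p s h
  · intro x z p p1 t s h ih
    have h : Rd' p z t p1 := h
    generalize hs : t.toList ++ s = s' at ih
    cases ih with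
    | blk seq x' =>
      have := Inv.blk (B := B) (K := K) seq (x' ++ [z]) p s
      rw [← List.append_assoc] at this
      exact this
    | pf => cases h
    | le =>
      cases h with
      | beg h0 =>
        simp only [Option.toList_none, List.nil_append] at hs
        subst hs
        exact Inv.la (B := B) (K := K) ⟨[], h0⟩ []
    | la r seq =>
      cases h with
      | d i h0 h1 =>
        simp only [Option.toList_none, List.nil_append] at hs
        subst hs
        have := Inv.la (B := B) (K := K) ⟨[], h0⟩ (seq ++ [i])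
        simpa [Hm] using this
    | pk seq =>
      cases h with
      | num =>
        simp only [Option.toList_none, List.nil_append] at hs
        subst hs
        have := Inv.pp (B := B) (K := K) seq [] (K :: (Hm seq).reverse) rfl
        simpa using this
    | pp seq u v huv =>
      cases h with
      | fin =>
        simp only [Option.toList_some, List.cons_append, List.nil_append] at hs
        rcases v with _ | ⟨a, v⟩
        · simp only [List.map_nil, List.nil_append, List.cons.injEq, true_and] at hs
          subst hs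
          simp only [List.append_nil] at huv
          subst huv
          have := Inv.blk (B := B) (K := K) seq [] .p0 []
          simpa [CMach.blk] using this
        · simp at hs
      | c a =>
        simp only [Option.toList_some, List.cons_append, List.nil_append] at hs
        rcases v with _ | ⟨b, v⟩
        · simp at hs
        · simp only [List.map_cons, List.cons_append, List.cons.injEq, TL.C.injEq] at hs
          obtain ⟨rfl, rfl⟩ := hs
          have := Inv.pp (B := B) (K := K) seq (u ++ [a]) v (by rw [← huv]; simp)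
          simpa using this
  · intro x p p1 t s h ih
    have h : Pp' K t p p1 := h
    cases ih with
    | blk seq x' => exact Inv.blk _ _ _ _
    | pf =>
      cases h with
      | bot => exact Inv.le
    | le => cases h
    | la r seq =>
      cases h with
      | K h0 =>
        have := Inv.pk (B := B) (K := K) seq
        simpa using this
      | C a r h0 h1 =>
        have := Inv.la (B := B) (K := K) ⟨a :: r, h0⟩ seq
        simpa using this
    | pk seq => cases h
    | pp seq u v huv => cases h

theorem blk_of_LO {x : List (In S)} (h : LO P K x (.p0 : QL S B) []) :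
    ∃ (seq : List (S × S)) (x' : List (In S)), x = blk seq (K :: (Hm seq).reverse) ++ x' := by
  have := Inv.of_LO h
  generalize hs : ([] : List (TL S)) = s at this
  cases this with
  | blk seq x' => exact ⟨seq, x', rfl⟩

end Left

section Right

theorem RO.inv {x : List (In S)} {q : QR S B} {s : List (TR S)} (h : RO P K s q x) :
    (s = [] ∧ q = .qf ∧ x = []) ∨
    (∃ z x' t q1, x = z :: x' ∧ Rd q z t q1 ∧ RO P K (t.toList ++ s) q1 x') ∨
    (∃ t s' q1, s = t :: s' ∧ Pp P t q q1 ∧ RO P K s' q1 x) :=
  ROk.inv (M := mach P K B) h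

theorem R1 {s : List (TR S)} {x : List (In S)} (h : RO P K s (.q0 : QR S B) (.beg :: x)) :
    RO P K s (.qp : QR S B) x := by
  rcases h.inv with ⟨-, h, -⟩ | ⟨z, x', t, q, he, h, h'⟩ | ⟨t, s', q, he, h, h'⟩
  · cases h
  · cases he
    cases h with
    | beg => exact h'
  · cases h

theorem R2 {x : List (In S)} : ∀ (seq : List (S × S)) (s : List (TR S)),
    RO P K s (.qp : QR S B) (seq.map .d ++ .num :: x) →
    ∃ h0, RO P K (seq.reverse.map .D ++ s) (.k ⟨[], h0⟩ : QR S B) x := by
  intro seq
  induction seq with
  | nil =>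
    intro s h
    rcases h.inv with ⟨-, h, -⟩ | ⟨z, x', t, q, he, h, h'⟩ | ⟨t, s', q, he, h, h'⟩
    · cases h
    · cases he
      cases h with
      | num h0 => exact ⟨h0, h'⟩
    · cases h
  | cons i seq ih =>
    intro s h
    rcases h.inv with ⟨-, h, -⟩ | ⟨z, x', t, q, he, h, h'⟩ | ⟨t, s', q, he, h, h'⟩
    · cases h
    · cases he
      cases h with
      | d _ =>
        obtain ⟨h0, h1⟩ := ih _ h'
        exact ⟨h0, by simpa using h1⟩
    · cases h

theorem R3 {s : List (TR S)} {x : List (In S)} : ∀ (r : List S) (hr : r.length ≤ B) (u : List S),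
    RO P K s (.k ⟨r, hr⟩ : QR S B) (u.map .c ++ .fin :: x) →
    ∃ u' h0, u = r ++ u' ∧ RO P K s (.k ⟨[], h0⟩ : QR S B) (u'.map .c ++ .fin :: x) := by
  intro r
  induction r with
  | nil => intro hr u h; exact ⟨u, hr, rfl, h⟩
  | cons a r ih =>
    intro hr u h
    rcases u with _ | ⟨b, u⟩
    · rcases h.inv with ⟨-, h, -⟩ | ⟨z, x', t, q, he, h, h'⟩ | ⟨t, s', q, he, h, h'⟩
      · cases h
      · cases he
        cases h
      · cases h
    · rcases h.inv with ⟨-, h, -⟩ | ⟨z, x', t, q, he, h, h'⟩ | ⟨t, s', q, he, h, h'⟩
      · cases h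
      · cases he
        cases h with
        | c _ _ _ h1 =>
          obtain ⟨u', h0, rfl, h2⟩ := ih h1 u h'
          exact ⟨u', h0, rfl, h2⟩
      · cases h

theorem R4 {x : List (In S)} : ∀ (l : List S) (h0 : ([] : List S).length ≤ B) (u : List S),
    RO P K (l.map .E ++ [.bot]) (.k ⟨[], h0⟩ : QR S B) (u.map .c ++ .fin :: x) → u = l := by
  intro l
  induction l with
  | nil =>
    intro h0 u h
    rcases h.inv with ⟨-, h, -⟩ | ⟨z, x', t, q, he, h, h'⟩ | ⟨t, s', q, he, h, h'⟩
    · cases h
    · cases h
    · cases he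
      cases h with
      | bot _ =>
        rcases u with _ | ⟨b, u⟩
        · rfl
        · exfalso
          rcases h'.inv with ⟨-, h, -⟩ | ⟨z, x', t, q, he, h, h'⟩ | ⟨t, s', q, he, h, h'⟩
          · cases h
          · cases he
            cases h
          · cases he
  | cons a l ih =>
    intro h0 u h
    rcases h.inv with ⟨-, h, -⟩ | ⟨z, x', t, q, he, h, h'⟩ | ⟨t, s', q, he, h, h'⟩
    · cases h
    · cases h
    · cases he
      cases h with
      | E _ _ h1 =>
        obtain ⟨u', h2, rfl, h3⟩ := R3 _ _ _ h'
        rw [ih _ _ h3]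
        rfl

theorem R5 {s : List (TR S)} {x : List (In S)} : ∀ (l : List (S × S))
    (h0 : ([] : List S).length ≤ B) (u : List S),
    RO P K (l.map .D ++ s) (.k ⟨[], h0⟩ : QR S B) (u.map .c ++ .fin :: x) →
    ∃ u', u = l.flatMap (fun i => (P i.1 i.2).reverse) ++ u' ∧
      RO P K s (.k ⟨[], h0⟩ : QR S B) (u'.map .c ++ .fin :: x) := by
  intro l
  induction l with
  | nil => intro h0 u h; exact ⟨u, rfl, h⟩
  | cons i l ih =>
    intro h0 u h
    rcases h.inv with ⟨-, h, -⟩ | ⟨z, x', t, q, he, h, h'⟩ | ⟨t, s', q, he, h, h'⟩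
    · cases h
    · cases h
    · cases he
      cases h with
      | D _ _ h1 =>
        obtain ⟨u', h2, rfl, h3⟩ := R3 _ _ _ h'
        obtain ⟨u'', rfl, h4⟩ := ih _ _ h3
        exact ⟨u'', by simp, h4⟩

end Right

/-- The initial stack. -/
def s0 (w : List S) : List (TR S) := w.reverse.map .E ++ [.bot]

theorem sol_of {w : List S} {x : List (In S)} (h : LO P K x (.p0 : QL S B) [])
    (h' : RO P K (s0 w) (.q0 : QR S B) x) : Sol P K w := by
  obtain ⟨seq, x', rfl⟩ := blk_of_LO h
  have e : blk seq (K :: (Hm seq).reverse) ++ x' =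
      .beg :: (seq.map .d ++ .num :: ((K :: (Hm seq).reverse).map .c ++ .fin :: x')) := by
    simp [blk]
  rw [e] at h'
  obtain ⟨h0, h1⟩ := R2 _ _ (R1 h')
  obtain ⟨u', h2, h3⟩ := R5 _ _ _ h1
  have h4 := R4 _ _ _ h3
  subst h4
  refine ⟨seq, ?_⟩
  have h5 := congrArg List.reverse h2
  rw [List.reverse_append, List.reverse_reverse, List.reverse_flatMap, List.reverse_reverse] at h5
  simp only [Function.comp_def, List.reverse_reverse, List.reverse_cons] at h5
  rw [Fm, ← h5]

end Pool.Agent.Q221.Conj.CMach
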