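import Mathlib
import Pool.Agent.Q221.Conj.CMach

set_option autoImplicit false
set_option linter.constructorNameAsVariable false

/-!
# A finite length-reducing confluent system with undecidable `c`-conjugacy problem
-/

namespace Pool.Agent.Q221.Conj.CMach

open Relation Two

variable {S : Type} {B : ℕ} {P : S → S → List S} {K : S}

/-! ### Runs of the left-reading machine -/

theorem LO.fin : LO P K [] (.pf : QL S B) [] := LOk.fin

theorem LO.read {x : List (In S)} {z : In S} {p p1 : QL S B} {t : Option (TL S)} {s : List (TL S)}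
    (h : Rd' p z t p1) (h' : LO P K x p1 (t.toList ++ s)) : LO P K (x ++ [z]) p s :=
  LOk.read (M := mach P K B) x z p p1 t s h h'

theorem LO.pop {x : List (In S)} {p p1 : QL S B} {t : TL S} {s : List (TL S)}
    (h : Pp' K t p p1) (h' : LO P K x p1 s) : LO P K x p (t :: s) :=
  LOk.pop (M := mach P K B) x p p1 t s h h'

theorem L1 {x : List (In S)} {s : List (TL S)} {h0 : ([] : List S).length ≤ B} :
    ∀ (r : List S) (hr : r.length ≤ B),
    LO P K x (.la ⟨[], h0⟩ : QL S B) s → LO P K x (.la ⟨r, hr⟩ : QL S B) (r.map .C ++ s) := by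
  intro r
  induction r with
  | nil => intro hr h; exact h
  | cons a r ih =>
    intro hr h
    have hr' : r.length ≤ B := by
      simp only [List.length_cons] at hr
      omega
    exact LO.pop (Pp'.C a r hr hr') (ih hr' h)

theorem L2 {h0 : ([] : List S).length ≤ B} (h2 : 2 ≤ B) (seq : List (S × S)) :
    LO P K (.beg :: seq.map .d) (.la ⟨[], h0⟩ : QL S B) ((Hm seq).reverse.map .C ++ [.bot]) := by
  induction seq using List.reverseRecOn with
  | nil =>
    have h1 : LO P K [] (.le : QL S B) [.bot] := LO.pop Pp'.bot LO.fin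
    exact LO.read (x := []) (Rd'.beg h0) h1
  | append_singleton seq i ih =>
    have hi : [i.2, i.1].length ≤ B := by simpa using h2
    have h1 := L1 [i.2, i.1] hi ih
    have h3 := LO.read (t := none) (Rd'.d i h0 hi) h1
    refine cast ?_ h3
    congr 1
    · simp
    · simp [Hm]

theorem L3 : ∀ (v : List S) (x : List (In S)) (s : List (TL S)),
    LO P K x (.pp : QL S B) (v.map .C ++ s) → LO P K (x ++ v.map .c) (.pp : QL S B) s := by
  intro v
  induction v with
  | nil => intro x s h; simpa using h
  | cons a v ih =>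
    intro x s h
    have h1 : LO P K (x ++ [.c a]) (.pp : QL S B) (v.map .C ++ s) :=
      LO.read (t := some (.C a)) (Rd'.c a) h
    have h2 := ih _ _ h1
    simpa using h2

theorem LO_blk (hB : 2 ≤ B) (seq : List (S × S)) :
    LO P K (blk seq (K :: (Hm seq).reverse)) (.p0 : QL S B) [] := by
  have h0 : ([] : List S).length ≤ B := Nat.zero_le _
  have h1 := L2 (P := P) (K := K) (h0 := h0) hB seq
  have h2 : LO P K (.beg :: seq.map .d) (.pk : QL S B)
      (.C K :: ((Hm seq).reverse.map .C ++ [.bot])) := LO.pop (Pp'.K h0) h1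
  have h3 : LO P K ((.beg :: seq.map .d) ++ [.num]) (.pp : QL S B)
      ((K :: (Hm seq).reverse).map .C ++ [.bot]) := LO.read (t := none) Rd'.num h2
  have h4 := L3 _ _ _ h3
  have h5 : LO P K _ (.p0 : QL S B) [] := LO.read (t := some .bot) Rd'.fin h4
  refine cast ?_ h5
  congr 1
  simp [blk]

/-! ### Runs of the right-reading machine -/

theorem RO.fin : RO P K [] (.qf : QR S B) [] := ROk.fin

theorem RO.read {x : List (In S)} {z : In S} {q q1 : QR S B} {t : Option (TR S)} {s : List (TR S)}
    (h : Rd q z t q1) (h' : RO P K (t.toList ++ s) q1 x) : RO P K s q (z :: x) :=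
  ROk.read (M := mach P K B) x z q q1 t s h h'

theorem RO.pop {x : List (In S)} {q q1 : QR S B} {t : TR S} {s : List (TR S)}
    (h : Pp P t q q1) (h' : RO P K s q1 x) : RO P K (t :: s) q x :=
  ROk.pop (M := mach P K B) x q q1 t s h h'

theorem Q1 {x : List (In S)} {s : List (TR S)} {h0 : ([] : List S).length ≤ B} :
    ∀ (r : List S) (hr : r.length ≤ B),
    RO P K s (.k ⟨[], h0⟩ : QR S B) x → RO P K s (.k ⟨r, hr⟩ : QR S B) (r.map .c ++ x) := by
  intro r
  induction r with
  | nil => intro hr h; exact h
  | cons a r ih =>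
    intro hr h
    have hr' : r.length ≤ B := by
      simp only [List.length_cons] at hr
      omega
    exact RO.read (t := none) (Rd.c a r hr hr') (ih hr' h)

theorem Q2 (h1 : 1 ≤ B) {h0 : ([] : List S).length ≤ B} (l : List S) :
    RO P K (l.map .E ++ [.bot]) (.k ⟨[], h0⟩ : QR S B) (l.map .c ++ [.fin]) := by
  induction l with
  | nil =>
    have h1 : RO P K [] (.be : QR S B) [.fin] := RO.read (t := none) Rd.fin RO.fin
    exact RO.pop (Pp.bot h0) h1
  | cons a l ih =>
    have ha : [a].length ≤ B := by simpa using h1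
    exact RO.pop (Pp.E a h0 ha) (Q1 [a] ha ih)

theorem Q3 (hP : ∀ x y, (P x y).length ≤ B) {h0 : ([] : List S).length ≤ B} {s : List (TR S)}
    {x : List (In S)} (h : RO P K s (.k ⟨[], h0⟩ : QR S B) x) (l : List (S × S)) :
    RO P K (l.map .D ++ s) (.k ⟨[], h0⟩ : QR S B)
      ((l.flatMap fun i => (P i.1 i.2).reverse).map .c ++ x) := by
  induction l with
  | nil => exact h
  | cons i l ih =>
    have hi : (P i.1 i.2).reverse.length ≤ B := by
      rw [List.length_reverse]
      exact hP _ _
    have h1 := RO.pop (Pp.D i h0 hi) (Q1 _ hi ih)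
    simpa using h1

theorem Q4 {x : List (In S)} : ∀ (seq : List (S × S)) (s : List (TR S)),
    RO P K (seq.reverse.map .D ++ s) (.qp : QR S B) x →
    RO P K s (.qp : QR S B) (seq.map .d ++ x) := by
  intro seq
  induction seq with
  | nil => intro s h; simpa using h
  | cons i seq ih =>
    intro s h
    have h1 : RO P K (.D i :: s) (.qp : QR S B) (seq.map .d ++ x) := ih _ (by simpa using h)
    exact RO.read (t := some (.D i)) (Rd.d i) h1

theorem RO_blk (hB : 2 ≤ B) (hP : ∀ x y, (P x y).length ≤ B) (w : List S) (seq : List (S × S)) :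
    RO P K (s0 w) (.q0 : QR S B) (blk seq ((Fm P seq).reverse ++ w.reverse)) := by
  have h0 : ([] : List S).length ≤ B := Nat.zero_le _
  have h1 := Q2 (P := P) (K := K) (h0 := h0) (by omega) w.reverse
  have h2 := Q3 hP h1 seq.reverse
  have h3 := Q4 seq _ (RO.read (t := none) (Rd.num h0) h2)
  have h4 := RO.read (t := none) Rd.beg h3
  refine cast ?_ h4
  congr 1
  simp [blk, Fm, List.reverse_flatMap, Function.comp_def]

/-! ### The way back -/

/-- The word that leads from the second word back to the first word. -/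
def way (w : List S) : List (In S) := .r :: (w.map .c ++ [.r'])

theorem way_left (w : List S) : Steps (R (mach P K B))
    (wL (M := mach P K B) (way w) (.pf : QL S B) [])
    (wL (M := mach P K B) [] (.p0 : QL S B) []) := by
  have h1 : Steps (R (mach P K B)) (wL (M := mach P K B) (way w) (.pf : QL S B) [])
      (wL (M := mach P K B) (In.r :: w.map In.c) (.p1 : QL S B) []) :=
    run_rd' (M := mach P K B) (p := (.pf : QL S B)) (p1 := (.p1 : QL S B)) (z := In.r')
      (t := none) Rd'.r' [] (In.r :: w.map In.c)
  have h2 : ∀ w : List S, Steps (R (mach P K B))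
      (wL (M := mach P K B) (In.r :: w.map In.c) (.p1 : QL S B) [])
      (wL (M := mach P K B) [In.r] (.p1 : QL S B) []) := by
    intro w
    induction w using List.reverseRecOn with
    | nil => exact ReflTransGen.refl
    | append_singleton w a ih =>
      have h3 : Steps (R (mach P K B))
          (wL (M := mach P K B) ((In.r :: w.map In.c) ++ [In.c a]) (.p1 : QL S B) [])
          (wL (M := mach P K B) (In.r :: w.map In.c) (.p1 : QL S B) []) :=
        run_rd' (M := mach P K B) (p := (.p1 : QL S B)) (p1 := (.p1 : QL S B)) (z := In.c a)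
          (t := none) (Rd'.e a) [] (In.r :: w.map In.c)
      have e1 : In.r :: (w ++ [a]).map In.c = (In.r :: w.map In.c) ++ [In.c a] := by simp
      exact (congrArg (fun x : List (In S) => Steps (R (mach P K B))
        (wL (M := mach P K B) x (.p1 : QL S B) [])
        (wL (M := mach P K B) [In.r] (.p1 : QL S B) [])) e1).mpr (h3.trans ih)
  have h3 : Steps (R (mach P K B))
      (wL (M := mach P K B) ([] ++ [In.r]) (.p1 : QL S B) [])
      (wL (M := mach P K B) [] (.p0 : QL S B) []) :=
    run_rd' (M := mach P K B) (p := (.p1 : QL S B)) (p1 := (.p0 : QL S B)) (z := In.r)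
      (t := none) Rd'.r [] []
  exact (h1.trans (h2 w)).trans h3

theorem way_right (w : List S) : Steps (R (mach P K B))
    (wR (M := mach P K B) [] (.qf : QR S B) (way w))
    (wR (M := mach P K B) (s0 w) (.q0 : QR S B) []) := by
  have h1 : Steps (R (mach P K B)) (wR (M := mach P K B) [] (.qf : QR S B) (way w))
      (wR (M := mach P K B) [TR.bot] (.q1 : QR S B) (w.map In.c ++ [In.r'])) :=
    run_rd (M := mach P K B) (q := (.qf : QR S B)) (q1 := (.q1 : QR S B)) (z := In.r)
      (t := some TR.bot) Rd.r [] (w.map In.c ++ [In.r'])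
  have h2 : ∀ (w : List S) (s : List (TR S)), Steps (R (mach P K B))
      (wR (M := mach P K B) s (.q1 : QR S B) (w.map In.c ++ [In.r']))
      (wR (M := mach P K B) (w.reverse.map TR.E ++ s) (.q1 : QR S B) [In.r']) := by
    intro w
    induction w with
    | nil => intro s; exact ReflTransGen.refl
    | cons a w ih =>
      intro s
      have h3 : Steps (R (mach P K B))
          (wR (M := mach P K B) s (.q1 : QR S B) (In.c a :: (w.map In.c ++ [In.r'])))
          (wR (M := mach P K B) (TR.E a :: s) (.q1 : QR S B) (w.map In.c ++ [In.r'])) :=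
        run_rd (M := mach P K B) (q := (.q1 : QR S B)) (q1 := (.q1 : QR S B)) (z := In.c a)
          (t := some (TR.E a)) (Rd.e a) s (w.map In.c ++ [In.r'])
      have e1 : (a :: w).reverse.map TR.E ++ s = w.reverse.map TR.E ++ TR.E a :: s := by simp
      exact (congrArg (fun x : List (TR S) => Steps (R (mach P K B))
        (wR (M := mach P K B) s (.q1 : QR S B) (In.c a :: (w.map In.c ++ [In.r'])))
        (wR (M := mach P K B) x (.q1 : QR S B) [In.r'])) e1).mpr (h3.trans (ih _))
  have h3 : Steps (R (mach P K B))
      (wR (M := mach P K B) (s0 w) (.q1 : QR S B) [In.r'])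
      (wR (M := mach P K B) (s0 w) (.q0 : QR S B) []) :=
    run_rd (M := mach P K B) (q := (.q1 : QR S B)) (q1 := (.q0 : QR S B)) (z := In.r')
      (t := none) Rd.r' (s0 w) []
  exact (h1.trans (h2 w _)).trans h3

theorem main_iff (hB : 2 ≤ B) (hP : ∀ x y, (P x y).length ≤ B) (w : List S) :
    CConj (cl (R (mach P K B)) (wa (mach P K B) (.pf : QL S B) (s0 w) (.q0 : QR S B)))
      (cl (R (mach P K B)) (wb (mach P K B) (.p0 : QL S B) (.qf : QR S B))) ↔ Sol P K w := by
  have hq : ∀ (t : TR S) (q1 : QR S B), ¬ Pp P t .q0 q1 := by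
    intro t q1 h
    cases h
  constructor
  · intro h
    obtain ⟨x, h1, h2⟩ := conj_imp (M := mach P K B) (pf := (.pf : QL S B)) (p0 := (.p0 : QL S B))
      (qf := (.qf : QR S B)) (q0 := (.q0 : QR S B)) (s0 := s0 w) hq h
    exact sol_of (x := x) h1 h2
  · rintro ⟨seq, hs⟩
    have e : (Fm P seq).reverse ++ w.reverse = K :: (Hm seq).reverse := by
      have := congrArg List.reverse hs
      simpa using this
    have h1 : RO P K (s0 w) (.q0 : QR S B) (blk seq (K :: (Hm seq).reverse)) := by
      rw [← e]
      exact RO_blk hB hP w seq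
    exact imp_conj (M := mach P K B) (pf := (.pf : QL S B)) (p0 := (.p0 : QL S B))
      (qf := (.qf : QR S B)) (q0 := (.q0 : QR S B)) (s0 := s0 w) hq (LO_blk hB seq) h1
      (way_left w) (way_right w)

theorem main : ∃ (k : ℕ) (R : Set (List (Fin k) × List (Fin k))),
    R.Finite ∧ LengthReducing R ∧ Confluent R ∧
    ¬ ComputablePred (fun p : List (Fin k) × List (Fin k) => CConj (cl R p.1) (cl R p.2)) := by
  classical
  obtain ⟨S, hS, P, K, w, hw, hcomp, hnot⟩ := base
  obtain ⟨B, hB2, hPB⟩ : ∃ B, 2 ≤ B ∧ ∀ x y, (P x y).length ≤ B := by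
    have : (Set.range fun i : S × S => (P i.1 i.2).length).Finite := Set.finite_range _
    obtain ⟨b, hb⟩ := this.bddAbove
    refine ⟨max 2 b, le_max_left _ _, fun x y => le_trans (hb ⟨(x, y), rfl⟩) (le_max_right _ _)⟩
  let M := mach P K B
  have f1 : Finite M.I := inferInstanceAs (Finite (In S))
  have f2 : Finite M.Q := inferInstanceAs (Finite (QR S B))
  have f3 : Finite M.T := inferInstanceAs (Finite (TR S))
  have f4 : Finite M.Q' := inferInstanceAs (Finite (QL S B))
  have f5 : Finite M.T' := inferInstanceAs (Finite (TL S))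
  have fL : Finite (L M) := finite_L M
  obtain ⟨k, ⟨e⟩⟩ := Finite.exists_equiv_fin (L M)
  refine ⟨k, mapR e (R M), mapR_finite e R_finite, mapR_lengthReducing e R_lengthReducing,
    mapR_confluent e R_confluent, ?_⟩
  intro hc
  apply hnot
  let u : ℕ → List (L M) := fun n => wa M (.pf : QL S B) (s0 (w n)) (.q0 : QR S B)
  let v : List (L M) := wb M (.p0 : QL S B) (.qf : QR S B)
  refine ComputablePred.computable_of_manyOneReducible (p := fun n => Sol P K (w n)) (q := _)
    ⟨fun n => ((u n).map e, v.map e), ?_, fun n => ?_⟩ hc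
  · refine Computable.pair ?_ (Computable.const _)
    let κ : S → Fin k := fun a => e (L.sr (M := M) (TR.E a))
    have h1 := hcomp (Fin k) κ
    let pre : List (Fin k) := [e (L.ls (M := M) (QL.pf : QL S B)), e (L.J), e (L.sr (M := M) (TR.bot : TR S))]
    let post : List (Fin k) := [e (L.rs (M := M) (QR.q0 : QR S B))]
    have : (fun n => (u n).map e) = fun n => pre ++ (((w n).map κ) ++ post) := by
      funext n
      change (wa M (.pf : QL S B) (s0 (w n)) (.q0 : QR S B)).map e = _
      have e1 : wa M (.pf : QL S B) (s0 (w n)) (.q0 : QR S B) =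
          [L.ls (M := M) (QL.pf : QL S B), L.J] ++ (L.sr (M := M) (TR.bot : TR S) ::
            (w n).map (fun a => L.sr (M := M) (TR.E a)) ++ [L.rs (M := M) (QR.q0 : QR S B)]) := by
        change [L.ls (M := M) (QL.pf : QL S B), L.J] ++ ((s0 (w n)).reverse.map L.sr ++
          [L.rs (M := M) (QR.q0 : QR S B)] ++ enc []) = _
        simp only [s0, List.reverse_append, List.reverse_cons, List.reverse_nil, List.nil_append,
          List.map_reverse, List.reverse_reverse, enc, List.flatMap_nil, List.append_nil]
        have e2 : List.map (L.sr (M := M)) (List.map TR.E (w n)) =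
          List.map (fun a => L.sr (M := M) (TR.E a)) (w n) := List.map_map
        exact congrArg (fun l => L.ls (M := M) (QL.pf : QL S B) :: L.J ::
          L.sr (M := M) (TR.bot : TR S) :: (l ++ [L.rs (M := M) (QR.q0 : QR S B)])) e2
      rw [e1]
      simp only [List.map_append, List.map_cons, List.map_nil, List.map_map, List.cons_append,
        List.nil_append, pre, post, κ]
      rfl
    rw [this]
    exact Computable.list_append.comp (Computable.const _)
      (Computable.list_append.comp h1 (Computable.const _))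
  · change Sol P K (w n) ↔ CConj (cl (mapR e (R M)) ((u n).map e)) (cl (mapR e (R M)) (v.map e))
    rw [← mapEquiv_cl, ← mapEquiv_cl, cConj_map_iff]
    exact (main_iff hB2 hPB (w n)).symm

end Pool.Agent.Q221.Conj.CMach
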