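import Mathlib
import Pool.Agent.Q221.Conj.Monad
import Pool.Agent.Q221.Conj.Trans

set_option autoImplicit false

/-!
# A finite monadic confluent system with undecidable `p`-conjugacy problem
-/

namespace Pool.Agent.Q221.Conj.Monad

open Relation

variable {S : Type} {B : ℕ} {P : S → S → List S}

/-- Pairs of letters that are not redexes. -/
def Good (P : S → S → List S) (a b : L S B) : Prop := ∀ r, ¬ Rule P [a, b] r

theorem irr_of_chain {z : List (L S B)} (h : z.IsChain (Good P)) : Irr (R P) z := by
  rintro v ⟨x, y, l, r, hr, rfl, -⟩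
  have hl := (mem_length hr).1
  obtain ⟨a, b, rfl⟩ := List.length_eq_two.1 hl
  rw [List.isChain_iff_forall_rel_of_append_cons_cons] at h
  exact h (a := a) (b := b) (l₁ := x) (l₂ := y) (by simp) r hr

theorem wa_tail_chain : ∀ (l : List S), ((l.map .c ++ [.W] : List (L S B))).IsChain (Good P)
  | [] => by simp
  | [a] => by
    simp only [List.map_cons, List.map_nil, List.cons_append, List.nil_append,
      List.isChain_cons_cons, List.isChain_singleton, and_true]
    intro r h
    cases h
  | a :: b :: l => by
    have ih := wa_tail_chain (b :: l)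
    simp only [List.map_cons, List.cons_append, List.isChain_cons_cons] at ih ⊢
    refine ⟨?_, ih⟩
    intro r h
    cases h

theorem wa_irr (hB : 0 ≤ B) (w : List S) : Irr (R P) (wa hB w) := by
  apply irr_of_chain
  have h := wa_tail_chain (B := B) (P := P) w.reverse
  rw [wa]
  simp only [List.cons_append, List.nil_append]
  refine List.IsChain.cons_cons ?_ ?_
  · intro r h; cases h
  · refine List.IsChain.cons h ?_
    intro y hy r hr
    rcases hw : w.reverse with _ | ⟨a, l⟩
    · simp only [hw, List.map_nil, List.nil_append, List.head?_cons, Option.mem_def,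
        Option.some.injEq] at hy
      subst hy
      cases hr
    · simp only [hw, List.map_cons, List.cons_append, List.head?_cons, Option.mem_def,
        Option.some.injEq] at hy
      subst hy
      cases hr

theorem wb_irr (hB : 0 ≤ B) (K : S) : Irr (R P) (wb hB K) := by
  apply irr_of_chain
  rw [wb]
  simp only [List.isChain_cons_cons, List.isChain_singleton, and_true]
  refine ⟨?_, ?_, ?_⟩ <;> intro r h <;> cases h

theorem single {l r : List (L S B)} (h : Rule P l r) : Steps (R P) l r :=
  ReflTransGen.single ⟨[], [], l, r, h, by simp, by simp⟩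

theorem a1 (t : List S) : ∀ (r : List S) (hr : r.length ≤ B) (h0 : ([] : List S).length ≤ B),
    Steps (R P) ([L.sg ⟨r, hr⟩] ++ (r ++ t).map .c) ([.sg ⟨[], h0⟩] ++ t.map .c) := by
  intro r
  induction r with
  | nil => intro hr h0; exact ReflTransGen.refl
  | cons a r ih =>
    intro hr h0
    have hr' : r.length ≤ B := by
      simp only [List.length_cons] at hr
      omega
    have h1 := (single (P := P) (Rule.sc a r hr hr')).right ((r ++ t).map .c)
    have h2 := ih hr' h0
    refine Relation.ReflTransGen.trans ?_ h2
    simpa using h1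

theorem a2 (hP : ∀ x y, (P x y).length ≤ B) (h0 : ([] : List S).length ≤ B) (t : List S) (p : List (S × S)) :
    Steps (R P) (p.map .d ++ [L.sg ⟨[], h0⟩] ++ ((Fm P p).reverse ++ t).map .c)
      ([L.sg ⟨[], h0⟩] ++ t.map .c) := by
  induction p using List.reverseRecOn with
  | nil => simpa [Fm] using ReflTransGen.refl
  | append_singleton p i ih =>
    have hi : (P i.1 i.2).reverse.length ≤ B := by
      rw [List.length_reverse]
      exact hP _ _
    have h1 := ((single (P := P) (Rule.ds i h0 hi)).left (p.map .d)).right
      (((P i.1 i.2).reverse ++ ((Fm P p).reverse ++ t)).map .c)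
    have h2 := (a1 (P := P) ((Fm P p).reverse ++ t) (P i.1 i.2).reverse hi h0).left (p.map .d)
    have h3 : Steps (R P) _ _ := (h1.trans (by simpa using h2)).trans ih
    refine (cast ?_ h3)
    congr 1
    simp [Fm]

theorem b1 (t : List S) : ∀ (r : List S) (hr : r.length ≤ B) (h0 : ([] : List S).length ≤ B),
    Steps (R P) ((t ++ r.reverse).map .c ++ [L.ta ⟨r, hr⟩]) (t.map .c ++ [L.ta ⟨[], h0⟩]) := by
  intro r
  induction r with
  | nil => intro hr h0; simpa using ReflTransGen.refl
  | cons a r ih =>
    intro hr h0
    have hr' : r.length ≤ B := by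
      simp only [List.length_cons] at hr
      omega
    have h1 := (single (P := P) (Rule.ct a r hr hr')).left ((t ++ r.reverse).map .c)
    have h2 := ih hr' h0
    refine Relation.ReflTransGen.trans ?_ h2
    simpa using h1

theorem b2 (h0 : ([] : List S).length ≤ B) (h2 : 2 ≤ B) (p : List (S × S)) : ∀ (t : List S),
    Steps (R P) ((t ++ (Hm p).reverse).map .c ++ [L.ta ⟨[], h0⟩] ++ p.map .d)
      (t.map .c ++ [L.ta ⟨[], h0⟩]) := by
  induction p with
  | nil => intro t; simpa [Hm] using ReflTransGen.refl
  | cons i p ih =>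
    intro t
    have hi : [i.1, i.2].length ≤ B := by simpa using h2
    have h1 := ((single (P := P) (Rule.td i h0 hi)).left
      ((t ++ (Hm p).reverse ++ [i.1, i.2].reverse).map .c)).right (p.map .d)
    have h3 := (b1 (P := P) (t ++ (Hm p).reverse) [i.1, i.2] hi h0).right (p.map .d)
    have h4 : Steps (R P) _ _ := (h1.trans h3).trans (ih t)
    refine (cast ?_ h4)
    congr 1
    simp [Hm]

theorem pconj_of_sol (hB : 0 ≤ B) (hP : ∀ x y, (P x y).length ≤ B) (h2 : 2 ≤ B) (K : S) (w : List S)
    (h : Sol P K w) : PConj (cl (R P) (wa hB w)) (cl (R P) (wb hB K)) := by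
  obtain ⟨s, hs⟩ := h
  have h0 : ([] : List S).length ≤ B := hB
  let u : List (L S B) := (.X :: s.map .d) ++ [.Y]
  let q : List S := (w ++ Fm P s).reverse
  let v : List (L S B) := (.Z :: q.map .c) ++ [.W]
  refine ⟨cl (R P) u, cl (R P) v, ?_, ?_⟩
  · rw [← cl_append]
    symm
    apply cl_eq_of_steps
    have h1 := ((single (P := P) (Rule.yz h0)).left (.X :: s.map .d)).right (q.map .c ++ [.W])
    have h3 := ((a2 (P := P) hP h0 w.reverse s).left [.X]).right [.W]
    refine Relation.ReflTransGen.trans (b := (.X :: s.map .d) ++ [L.sg ⟨[], h0⟩] ++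
      (q.map .c ++ [.W])) ?_ ?_
    · refine cast ?_ h1
      congr 1
      simp [u, v]
    · refine cast ?_ h3
      congr 1
      simp [q]
  · rw [← cl_append]
    symm
    apply cl_eq_of_steps
    have h1 := ((single (P := P) (Rule.wx h0)).left (.Z :: q.map .c)).right (s.map .d ++ [.Y])
    have h3 := ((b2 (P := P) h0 h2 s [K]).left [.Z]).right [.Y]
    refine Relation.ReflTransGen.trans (b := (.Z :: q.map .c) ++ [L.ta ⟨[], h0⟩] ++
      (s.map .d ++ [.Y])) ?_ ?_
    · refine cast ?_ h1
      congr 1
      simp [u, v]
    · refine cast ?_ h3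
      congr 1
      simp only [q, hs]
      simp

theorem map_c_inj {q q' : List S} (h : (q.map .c : List (L S B)) = q'.map .c) : q = q' := by
  refine List.map_injective_iff.2 ?_ h
  intro a b hab
  cases hab
  rfl

theorem map_d_inj {q q' : List (S × S)} (h : (q.map .d : List (L S B)) = q'.map .d) : q = q' := by
  refine List.map_injective_iff.2 ?_ h
  intro a b hab
  cases hab
  rfl

theorem sol_of_pconj (hB : 0 ≤ B) (K : S) (w : List S)
    (h : PConj (cl (R P) (wa hB w)) (cl (R P) (wb hB K))) : Sol P K w := by
  obtain ⟨u, v, h1, h2⟩ := h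
  obtain ⟨u, rfl⟩ := cl_surj u
  obtain ⟨v, rfl⟩ := cl_surj v
  rw [← cl_append] at h1 h2
  have hA := FA_of_steps (steps_of_eq R_confluent (wa_irr hB w) h1.symm)
  have hB' := FB_of_steps (steps_of_eq R_confluent (wb_irr hB K) h2.symm)
  generalize hg : u ++ v = g at hA
  generalize hg' : v ++ u = g' at hB'
  have hmem : ∀ x, x ∈ g ↔ x ∈ g' := by
    intro x
    rw [← hg, ← hg']
    simp only [List.mem_append]
    exact or_comm
  cases hB' with
  | one p' r' q' h' =>
    exfalso
    have hW := hmem .W
    cases hA with
    | one p r q h => simp at hW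
    | two p q h => simp at hW
  | two p' q' h' =>
    cases hA with
    | one p r q h =>
      exfalso
      have hY := hmem .Y
      simp at hY
    | two p q h =>
      rcases v with _ | ⟨a, v⟩
      · exfalso
        simp only [List.append_nil, List.nil_append] at hg hg'
        rw [hg] at hg'
        simp at hg'
      · have ha : a = .Z := by
          have := congrArg List.head? hg'
          simpa using this
        subst ha
        have hs : u ++ [L.Z] ++ v = (.X :: p.map .d ++ [.Y]) ++ [.Z] ++ (q.map .c ++ [.W]) := by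
          simpa using hg
        obtain ⟨-, rfl, rfl⟩ := split_unique hs (by simp) (by simp)
        have hs' : (L.Z :: q.map .c : List (L S B)) ++ [.W] ++ ([.X] ++ (p.map .d ++ [.Y])) =
            (L.Z :: q'.map .c) ++ [.W] ++ ([.X] ++ (p'.map .d ++ [.Y])) := by
          simpa using hg'
        obtain ⟨-, e1, e2⟩ := split_unique hs' (by simp) (by simp)
        simp only [List.cons.injEq, true_and] at e1
        have e1 := map_c_inj e1
        simp only [List.cons_append, List.nil_append, List.cons.injEq, true_and] at e2
        have e2 := map_d_inj (List.append_left_injective _ e2)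
        subst e1 e2
        refine ⟨p, ?_⟩
        have := congrArg List.reverse (h.symm.trans h')
        simpa using this

theorem main_iff (hB : 0 ≤ B) (hP : ∀ x y, (P x y).length ≤ B) (h2 : 2 ≤ B) (K : S) (w : List S) :
    PConj (cl (R P) (wa hB w)) (cl (R P) (wb hB K)) ↔ Sol P K w :=
  ⟨sol_of_pconj hB K w, pconj_of_sol hB hP h2 K w⟩

theorem main : ∃ (k : ℕ) (R : Set (List (Fin k) × List (Fin k))),
    R.Finite ∧ Monadic R ∧ Confluent R ∧
    ¬ ComputablePred (fun p : List (Fin k) × List (Fin k) => PConj (cl R p.1) (cl R p.2)) := by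
  classical
  obtain ⟨S, hS, P, K, w, hw, hcomp, hnot⟩ := base
  obtain ⟨B, hB2, hPB⟩ : ∃ B, 2 ≤ B ∧ ∀ x y, (P x y).length ≤ B := by
    have : (Set.range fun i : S × S => (P i.1 i.2).length).Finite := Set.finite_range _
    obtain ⟨b, hb⟩ := this.bddAbove
    refine ⟨max 2 b, le_max_left _ _, fun x y => le_trans (hb ⟨(x, y), rfl⟩) (le_max_right _ _)⟩
  have hB : 0 ≤ B := Nat.zero_le _
  obtain ⟨k, ⟨e⟩⟩ := Finite.exists_equiv_fin (L S B)
  refine ⟨k, mapR e (R P), mapR_finite e R_finite, mapR_monadic e R_monadic,
    mapR_confluent e R_confluent, ?_⟩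
  intro hc
  apply hnot
  refine ComputablePred.computable_of_manyOneReducible (p := fun n => Sol P K (w n)) (q := _)
    ⟨fun n => ((wa hB (w n)).map e, (wb hB K).map e), ?_, fun n => ?_⟩ hc
  · refine Computable.pair ?_ (Computable.const _)
    have h1 := hcomp (Fin k) (fun a => e (.c a))
    have : (fun n => (wa hB (w n)).map e) = fun n =>
        [e .X, e (.sg ⟨[], hB⟩)] ++ (((w n).map (fun a => e (.c a))).reverse ++ [e .W]) := by
      funext n
      simp [wa, Function.comp_def]
    rw [this]
    exact Computable.list_append.comp (Computable.const _)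
      (Computable.list_append.comp (Computable.list_reverse.comp h1) (Computable.const _))
  · change Sol P K (w n) ↔ PConj (cl (mapR e (R P)) ((wa hB (w n)).map e))
      (cl (mapR e (R P)) ((wb hB K).map e))
    rw [← mapEquiv_cl, ← mapEquiv_cl, pConj_map_iff]
    exact (main_iff hB hPB hB2 K (w n)).symm

end Pool.Agent.Q221.Conj.Monad
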